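import Pool.Agent.KS6_63.UST.Defs

set_option autoImplicit false

/-!
# Module BR: the theorem of Brègman (proof of Schrijver)
-/

namespace Pool.Agent.KS6_63.UST

namespace ModBR

open Finset

theorem bb_pos (c : ℕ) : 0 < bb c := by
  unfold bb
  exact Real.rpow_pos_of_pos (by exact_mod_cast Nat.factorial_pos c) _

theorem log_bb (c : ℕ) : Real.log (bb c) = (1 : ℝ) / c * Real.log (c.factorial : ℝ) := by
  unfold bb
  exact Real.log_rpow (by exact_mod_cast Nat.factorial_pos c) _

/-- The identity for the sum of the contributions of one column. -/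
theorem ident (n c : ℕ) (hc : 1 ≤ c) :
    ((n : ℝ) - c) * Real.log (bb c) + ((c : ℝ) - 1) * Real.log (bb (c - 1)) + Real.log c =
      n * Real.log (bb c) := by
  obtain ⟨k, rfl⟩ : ∃ k, c = k + 1 := ⟨c - 1, by omega⟩
  rw [log_bb, log_bb, Nat.add_sub_cancel, Nat.factorial_succ]
  have h1 : Real.log (((k + 1) * k.factorial : ℕ) : ℝ) =
      Real.log ((k + 1 : ℕ) : ℝ) + Real.log (k.factorial : ℝ) := by
    rw [Nat.cast_mul, Real.log_mul (by positivity) (by positivity)]
  rw [h1]
  have hk : ((k + 1 : ℕ) : ℝ) ≠ 0 := by positivity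
  rcases Nat.eq_zero_or_pos k with h0 | h0
  · subst h0
    simp
  · have hk0 : (k : ℝ) ≠ 0 := by positivity
    push_cast at hk ⊢
    field_simp
    ring

/-- Convexity of `x log x`. -/
theorem convex {ι : Type} (I : Finset ι) (a : ι → ℕ) (hI : I.Nonempty) (P : ℕ)
    (hP : ∑ i ∈ I, a i = P) :
    (P : ℝ) * Real.log P ≤ P * Real.log I.card + ∑ i ∈ I, (a i : ℝ) * Real.log (a i) := by
  have hc : (0 : ℝ) < I.card := by exact_mod_cast hI.card_pos
  have h := Real.convexOn_mul_log.map_sum_le (t := I) (w := fun _ => (1 : ℝ) / I.card)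
    (p := fun i => (a i : ℝ)) (fun i _ => by positivity) (by
      rw [Finset.sum_const, nsmul_eq_mul]; field_simp) (fun i _ => by
      simp)
  simp only [smul_eq_mul] at h
  rw [← Finset.mul_sum, ← Finset.mul_sum] at h
  have hs : (∑ i ∈ I, (a i : ℝ)) = P := by exact_mod_cast hP
  rw [hs] at h
  rcases Nat.eq_zero_or_pos P with h0 | h0
  · subst h0
    have : ∀ i ∈ I, a i = 0 := by
      intro i hi
      have := Finset.sum_eq_zero_iff.1 hP i hi
      exact this
    have h2 : ∑ i ∈ I, (a i : ℝ) * Real.log (a i) = 0 := by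
      apply Finset.sum_eq_zero
      intro i hi
      rw [this i hi]; simp
    rw [h2]; simp
  · have hPr : (0 : ℝ) < P := by exact_mod_cast h0
    have h3 : Real.log (1 / (I.card : ℝ) * P) = Real.log P - Real.log I.card := by
      rw [one_div, Real.log_mul (by positivity) (by positivity), Real.log_inv]; ring
    rw [h3] at h
    have h4 := mul_le_mul_of_nonneg_left h hc.le
    have e1 : (I.card : ℝ) * (1 / (I.card : ℝ) * P * (Real.log P - Real.log I.card)) =
        P * Real.log P - P * Real.log I.card := by
      field_simp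
    have e2 : (I.card : ℝ) * (1 / (I.card : ℝ) * ∑ i ∈ I, (a i : ℝ) * Real.log (a i)) =
        ∑ i ∈ I, (a i : ℝ) * Real.log (a i) := by
      field_simp
    rw [e1, e2] at h4
    linarith

open Classical in
/-- The set of the matchings. -/
noncomputable def TT {C R : Type} [Fintype C] [Fintype R] (A : R → C → Prop) : Finset (C ↪ R) :=
  univ.filter fun β => ∀ x, A (β x) x

open Classical in
theorem card_TT {C R : Type} [Fintype C] [Fintype R] (A : R → C → Prop) :
    Nat.card {β : C ↪ R // ∀ x, A (β x) x} = (TT A).card := by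
  rw [Nat.card_eq_fintype_card, Fintype.card_subtype]
  rfl

open Classical in
theorem card_col {R : Type} [Fintype R] (p : R → Prop) :
    Nat.card {t : R // p t} = (univ.filter p).card := by
  rw [Nat.card_eq_fintype_card, Fintype.card_subtype]

open Classical in
/-- Removing one row and one column. -/
theorem restr {C R : Type} [Fintype C] [Fintype R] (A : R → C → Prop) (x : C) (t : R) :
    ((TT A).filter fun β => β x = t).card ≤
      Nat.card {β : {y : C // y ≠ x} ↪ {s : R // s ≠ t} // ∀ y, A (β y).1 y.1} := by
  rw [← Fintype.card_coe, ← Nat.card_eq_fintype_card]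
  have hmem : ∀ β : {β // β ∈ (TT A).filter fun β => β x = t},
      (∀ y, A (β.1 y) y) ∧ β.1 x = t := by
    intro β
    have := β.2
    simp only [TT, Finset.mem_filter, Finset.mem_univ, true_and] at this
    exact this
  let f : {β // β ∈ (TT A).filter fun β => β x = t} →
      {β : {y : C // y ≠ x} ↪ {s : R // s ≠ t} // ∀ y, A (β y).1 y.1} := fun β =>
    ⟨⟨fun y => ⟨β.1 y.1, fun h => y.2 (β.1.injective (h.trans (hmem β).2.symm))⟩,
      fun y y' h => Subtype.ext (β.1.injective (congrArg Subtype.val h))⟩,
      fun y => (hmem β).1 y.1⟩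
  apply Nat.card_le_card_of_injective f
  intro β γ h
  apply Subtype.ext
  apply DFunLike.ext
  intro z
  by_cases hz : z = x
  · subst hz
    rw [(hmem β).2, (hmem γ).2]
  · have h1 := congrArg Subtype.val h
    have h2 := DFunLike.congr_fun h1 ⟨z, hz⟩
    exact congrArg Subtype.val h2

open Classical in
theorem card_restr {C R : Type} [Fintype C] [Fintype R] (A : R → C → Prop) (t : R) (y : C) :
    Nat.card {s : {s : R // s ≠ t} // A s.1 y} =
      (univ.filter fun s => A s y).card - (if A t y then 1 else 0) := by
  have h1 : Nat.card {s : {s : R // s ≠ t} // A s.1 y} =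
      ((univ.filter fun s => A s y).erase t).card := by
    rw [← Fintype.card_coe, ← Nat.card_eq_fintype_card]
    apply Nat.card_congr
    exact {
      toFun := fun s => ⟨s.1.1, by
        rw [Finset.mem_erase, Finset.mem_filter]
        exact ⟨s.1.2, Finset.mem_univ _, s.2⟩⟩
      invFun := fun s => ⟨⟨s.1, (Finset.mem_erase.1 s.2).1⟩,
        (Finset.mem_filter.1 (Finset.mem_erase.1 s.2).2).2⟩
      left_inv := fun s => rfl
      right_inv := fun s => rfl }
  rw [h1]
  by_cases h : A t y
  · rw [Finset.card_erase_of_mem (by simp [h]), if_pos h]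
  · rw [Finset.erase_eq_of_notMem (by simp [h]), if_neg h, Nat.sub_zero]

open Classical in
theorem step (n : ℕ)
    (IH : ∀ (C R : Type) [Fintype C] [Fintype R] (A : R → C → Prop), Fintype.card C = n →
      Fintype.card R = n →
      (Nat.card {β : C ↪ R // ∀ x, A (β x) x} : ℝ) ≤ ∏ x : C, bb (Nat.card {t : R // A t x}))
    (C R : Type) [Fintype C] [Fintype R] (A : R → C → Prop) (hC : Fintype.card C = n + 1)
    (hR : Fintype.card R = n + 1) :
    (Nat.card {β : C ↪ R // ∀ x, A (β x) x} : ℝ) ≤ ∏ x : C, bb (Nat.card {t : R // A t x}) := by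
  rw [card_TT]
  set c : C → ℕ := fun x => (univ.filter fun t => A t x).card with hc
  have hcc : ∀ x, Nat.card {t : R // A t x} = c x := fun x => card_col _
  simp only [hcc]
  set P := (TT A).card with hP
  rcases Nat.eq_zero_or_pos P with h0 | h0
  · rw [h0]
    simp only [Nat.cast_zero]
    exact Finset.prod_nonneg fun x _ => (bb_pos _).le
  -- the numbers `p x t`
  set p : C → R → ℕ := fun x t => ((TT A).filter fun β => β x = t).card with hp
  have hmem : ∀ β ∈ TT A, ∀ x, A (β x) x := by
    intro β hβ x
    simp only [TT, Finset.mem_filter, Finset.mem_univ, true_and] at hβ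
    exact hβ x
  obtain ⟨β₀, hβ₀⟩ := Finset.card_pos.1 h0
  have hc1 : ∀ x, 1 ≤ c x := fun x =>
    Finset.card_pos.2 ⟨β₀ x, by simp [hmem β₀ hβ₀ x]⟩
  have hsum : ∀ x, ∑ t ∈ univ.filter (fun t => A t x), p x t = P := by
    intro x
    rw [hP]
    exact (Finset.card_eq_sum_card_fiberwise (f := fun β : C ↪ R => β x)
      (t := univ.filter (fun t => A t x)) (fun β hβ => by
        simp only [Finset.coe_filter, Finset.mem_univ, true_and, Set.mem_ofPred_eq]
        exact hmem β hβ x)).symm
  -- the induction hypothesis
  have hIH : ∀ x t, 1 ≤ p x t → Real.log (p x t) ≤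
      ∑ y ∈ univ.erase x, Real.log (bb (c y - if A t y then 1 else 0)) := by
    intro x t hpt
    have h1 := IH {y : C // y ≠ x} {s : R // s ≠ t} (fun s y => A s.1 y.1)
      (by rw [Fintype.card_subtype_compl, hC]; simp)
      (by rw [Fintype.card_subtype_compl, hR]; simp)
    have h2 := restr A x t
    have h3 : (p x t : ℝ) ≤ ∏ y : {y : C // y ≠ x}, bb (c y.1 - if A t y.1 then 1 else 0) := by
      refine le_trans (by exact_mod_cast h2) (h1.trans (le_of_eq ?_))
      apply Finset.prod_congr rfl
      intro y _
      rw [card_restr A t y.1]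
    have h4 : ∏ y : {y : C // y ≠ x}, bb (c y.1 - if A t y.1 then 1 else 0) =
        ∏ y ∈ univ.erase x, bb (c y - if A t y then 1 else 0) :=
      (Finset.prod_subtype (univ.erase x) (by simp)
        (fun y => bb (c y - if A t y then 1 else 0))).symm
    rw [h4] at h3
    have h5 := Real.log_le_log (by exact_mod_cast hpt) h3
    rw [Real.log_prod (fun y _ => (bb_pos _).ne')] at h5
    exact h5
  -- step 1, summed over `x`
  have hconv : ∀ x, (P : ℝ) * Real.log P ≤ P * Real.log (c x) +
      ∑ β ∈ TT A, Real.log (p x (β x)) := by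
    intro x
    have h1 := convex (univ.filter (fun t => A t x)) (p x)
      (Finset.card_pos.1 (hc1 x)) P (hsum x)
    have h2 : ∑ t ∈ univ.filter (fun t => A t x), (p x t : ℝ) * Real.log (p x t) =
        ∑ β ∈ TT A, Real.log (p x (β x)) := by
      rw [← Finset.sum_fiberwise_of_maps_to (s := TT A) (t := univ.filter (fun t => A t x))
        (g := fun β : C ↪ R => β x) (fun β hβ => by simp [hmem β hβ x])]
      apply Finset.sum_congr rfl
      intro t _
      rw [Finset.sum_congr rfl (g := fun _ => Real.log (p x t)) (by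
        intro β hβ
        rw [(Finset.mem_filter.1 hβ).2])]
      rw [Finset.sum_const, nsmul_eq_mul]
    rw [h2] at h1
    exact h1
  have hS : ((n : ℝ) + 1) * (P * Real.log P) ≤ P * ∑ x, Real.log (c x) +
      ∑ β ∈ TT A, ∑ x, Real.log (p x (β x)) := by
    have h1 := Finset.sum_le_sum (s := (univ : Finset C)) fun x _ => hconv x
    rw [Finset.sum_const, nsmul_eq_mul, Finset.card_univ, hC, Finset.sum_add_distrib,
      ← Finset.mul_sum, Finset.sum_comm] at h1
    push_cast at h1
    linarith
  -- step 3
  have hβ : ∀ β ∈ TT A, ∑ x, Real.log (p x (β x)) ≤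
      ∑ y, (((n : ℝ) + 1 - c y) * Real.log (bb (c y)) +
        ((c y : ℝ) - 1) * Real.log (bb (c y - 1))) := by
    intro β hβ
    have hbij : Function.Bijective β :=
      (Fintype.bijective_iff_injective_and_card β).2 ⟨β.injective, by rw [hC, hR]⟩
    have h1 : ∑ x, Real.log (p x (β x)) ≤
        ∑ x, ∑ y ∈ univ.erase x, Real.log (bb (c y - if A (β x) y then 1 else 0)) := by
      apply Finset.sum_le_sum
      intro x _
      exact hIH x (β x) (Finset.card_pos.2 ⟨β, by simp [hβ]⟩)
    refine h1.trans (le_of_eq ?_)
    have h2 : ∑ x, ∑ y ∈ univ.erase x, Real.log (bb (c y - if A (β x) y then 1 else 0)) =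
        ∑ y, ∑ x ∈ univ.erase y, Real.log (bb (c y - if A (β x) y then 1 else 0)) := by
      apply Finset.sum_comm'
      intro x y
      simp [eq_comm]
    rw [h2]
    apply Finset.sum_congr rfl
    intro y _
    have h3 : ∀ x ∈ univ.erase y, Real.log (bb (c y - if A (β x) y then 1 else 0)) =
        if A (β x) y then Real.log (bb (c y - 1)) else Real.log (bb (c y)) := by
      intro x _
      split_ifs <;> simp
    rw [Finset.sum_congr rfl h3, Finset.sum_ite, Finset.sum_const, Finset.sum_const,
      nsmul_eq_mul, nsmul_eq_mul]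
    have h4 : ((univ.erase y).filter fun x => A (β x) y).card = c y - 1 := by
      have e1 : ((univ : Finset C).filter fun x => A (β x) y).card = c y := by
        rw [hc]
        apply Finset.card_bij (fun x _ => β x)
        · intro x hx
          simpa using hx
        · intro x _ x' _ h
          exact β.injective h
        · intro t ht
          obtain ⟨x, rfl⟩ := hbij.2 t
          exact ⟨x, by simpa using ht, rfl⟩
      have e2 : (univ.erase y).filter (fun x => A (β x) y) =
          ((univ : Finset C).filter fun x => A (β x) y).erase y := by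
        ext x
        simp [and_comm]
      rw [e2, Finset.card_erase_of_mem (by simp [hmem β hβ y]), e1]
    have h5 : ((univ.erase y).filter fun x => ¬ A (β x) y).card = n + 1 - c y := by
      have e1 := Finset.card_filter_add_card_filter_not (s := (univ : Finset C).erase y)
        (p := fun x => A (β x) y)
      rw [Finset.card_erase_of_mem (Finset.mem_univ y), Finset.card_univ, hC, h4] at e1
      have := hc1 y
      omega
    have hle : c y ≤ n + 1 := by
      rw [← hR]
      exact Finset.card_le_univ _
    rw [h4, h5, Nat.cast_sub (hc1 y), Nat.cast_sub hle]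
    push_cast
    ring
  -- together
  have hfin : ((n : ℝ) + 1) * (P * Real.log P) ≤ P * (((n : ℝ) + 1) * ∑ y, Real.log (bb (c y))) := by
    refine hS.trans ?_
    have h1 := Finset.sum_le_sum hβ
    rw [Finset.sum_const, nsmul_eq_mul] at h1
    have h2 : ∑ y, Real.log (c y) + ∑ y, (((n : ℝ) + 1 - c y) * Real.log (bb (c y)) +
        ((c y : ℝ) - 1) * Real.log (bb (c y - 1))) =
        ((n : ℝ) + 1) * ∑ y, Real.log (bb (c y)) := by
      rw [← Finset.sum_add_distrib, Finset.mul_sum]
      apply Finset.sum_congr rfl
      intro y _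
      have := ident (n + 1) (c y) (hc1 y)
      push_cast at this
      linarith
    rw [← h2, mul_add]
    linarith
  have hn : (0 : ℝ) < (n : ℝ) + 1 := by positivity
  have hPr : (0 : ℝ) < P := by exact_mod_cast h0
  have hlog : Real.log P ≤ ∑ y, Real.log (bb (c y)) := by
    have h1 : (((n : ℝ) + 1) * P) * Real.log P ≤
        (((n : ℝ) + 1) * P) * ∑ y, Real.log (bb (c y)) := by
      calc _ = ((n : ℝ) + 1) * (P * Real.log P) := by ring
        _ ≤ _ := hfin
        _ = _ := by ring
    exact le_of_mul_le_mul_left h1 (by positivity)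
  rw [← Real.log_prod (fun y _ => (bb_pos _).ne')] at hlog
  exact (Real.log_le_log_iff hPr (Finset.prod_pos fun y _ => bb_pos _)).1 hlog

end ModBR

/-- Module BR: the theorem of Brègman. -/
theorem br : StmtBR := by
  suffices H : ∀ n : ℕ, ∀ (C R : Type) [Fintype C] [Fintype R] (A : R → C → Prop),
      Fintype.card C = n → Fintype.card R = n →
      (Nat.card {β : C ↪ R // ∀ x, A (β x) x} : ℝ) ≤
        ∏ x : C, bb (Nat.card {t : R // A t x}) by
    intro C R _ _ A h
    exact H (Fintype.card C) C R A rfl h.symm
  intro n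
  induction n with
  | zero =>
    intro C R _ _ A hC hR
    have : IsEmpty C := Fintype.card_eq_zero_iff.1 hC
    have h1 : Nat.card {β : C ↪ R // ∀ x, A (β x) x} ≤ 1 := by
      have : Subsingleton {β : C ↪ R // ∀ x, A (β x) x} :=
        ⟨fun a b => Subtype.ext (DFunLike.ext _ _ fun x => isEmptyElim x)⟩
      exact Finite.card_le_one_iff_subsingleton.2 inferInstance
    rw [Finset.prod_of_isEmpty]
    exact_mod_cast h1
  | succ n ih =>
    intro C R _ _ A hC hR
    exact ModBR.step n (fun C R _ _ A h1 h2 => ih C R A h1 h2) C R A hC hR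

end Pool.Agent.KS6_63.UST
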