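import Pool.Agent.KS6_63.UST.Defs

set_option autoImplicit false

open scoped BigOperators

namespace Pool.Agent.KS6_63.UST

namespace ModCF

theorem double_count {V : Type} [Fintype V] [DecidableEq V] (N : V → Finset V) (d : ℕ)
    (hd : ∀ x, (N x).card ≤ d) (hsym : ∀ x y, y ∈ N x ↔ x ∈ N y) (h : V → ℕ) :
    ∑ x, ∑ y ∈ N x, h y ≤ d * ∑ y, h y := by
  have h1 : ∀ x, ∑ y ∈ N x, h y = ∑ y, if y ∈ N x then h y else 0 := by
    intro x
    rw [← Finset.sum_filter, Finset.filter_mem_eq_inter, Finset.univ_inter]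
  simp only [h1]
  rw [Finset.sum_comm, Finset.mul_sum]
  refine Finset.sum_le_sum fun y _ => ?_
  have h2 : ∀ x, (if y ∈ N x then h y else 0) = if x ∈ N y then h y else 0 := by
    intro x
    simp only [hsym x y]
  simp only [h2]
  rw [← Finset.sum_filter, Finset.filter_mem_eq_inter, Finset.univ_inter, Finset.sum_const,
    smul_eq_mul]
  exact Nat.mul_le_mul_right _ (hd y)

/-- levels and heavy part -/
theorem levels (D k : ℕ) : (∑ j ∈ Finset.range D, if j < k then 1 else 0) + (k - D) = k := by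
  have h1 : (∑ j ∈ Finset.range D, if j < k then 1 else 0) = min D k := by
    rw [← Finset.sum_filter, Finset.sum_const, smul_eq_mul, mul_one]
    have : (Finset.range D).filter (fun j => j < k) = Finset.range (min D k) := by
      ext j
      simp [Finset.mem_filter, Finset.mem_range]
    rw [this, Finset.card_range]
  rw [h1]
  omega

end ModCF

theorem cf (hCN : StmtCN) (hCV : StmtCV) : StmtCF := by
  classical
  intro ε hε m
  set M : ℕ := m + 1 with hM
  have hM0 : (0 : ℝ) < M := by rw [hM]; push_cast; positivity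
  set ε' : ℝ := ε / (2 * M) with hε'
  have hε'0 : 0 < ε' := by positivity
  obtain ⟨D, hD1, hD⟩ := hCN ε' hε'0
  have hD0 : (0 : ℝ) < D := by exact_mod_cast hD1
  set ε1 : ℝ := ε / (2 * M * D) with hε1
  have hε10 : 0 < ε1 := by positivity
  obtain ⟨d0, hd0⟩ := hCV ε1 hε10
  refine ⟨d0, ?_⟩
  intro d hd V Θ _ _ N hΘ hnV hreg hsym
  obtain ⟨G, hG1, hG2⟩ := hd0 d hd V N hnV hreg hsym
  obtain ⟨hfin, hS⟩ := hD V
  set n := Fintype.card V with hn
  set S : Set (V → ℕ) := {h : V → ℕ | D * Nat.card {x // h x ≠ 0} ≤ n ∧ ∑ x, h x ≤ 4 * n} with hSdef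
  rw [Set.ncard_eq_toFinset_card S hfin] at hS
  -- the family for one function
  let F1 : Finset (V → ℝ) := ((Fintype.piFinset (fun _ : Fin D => G)) ×ˢ hfin.toFinset).image
    (fun p => fun x => ∑ j, p.1 j x + ((∑ y ∈ N x, p.2 y : ℕ) : ℝ))
  have hF1 : (F1.card : ℝ) ≤ Real.exp ((D * ε1 + ε') * n) := by
    have h1 : F1.card ≤ G.card ^ D * hfin.toFinset.card := by
      refine le_trans Finset.card_image_le ?_
      rw [Finset.card_product, Fintype.card_piFinset_const]
    have h2 : (F1.card : ℝ) ≤ (G.card : ℝ) ^ D * (hfin.toFinset.card : ℝ) := by exact_mod_cast h1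
    have h3 : (G.card : ℝ) ^ D ≤ Real.exp (D * (ε1 * n)) := by
      rw [Real.exp_nat_mul]
      exact pow_le_pow_left₀ (Nat.cast_nonneg _) hG1 D
    calc (F1.card : ℝ) ≤ (G.card : ℝ) ^ D * (hfin.toFinset.card : ℝ) := h2
      _ ≤ Real.exp (D * (ε1 * n)) * Real.exp (ε' * n) :=
          mul_le_mul h3 hS (Nat.cast_nonneg _) (Real.exp_pos _).le
      _ = Real.exp ((D * ε1 + ε') * n) := by
          rw [← Real.exp_add]
          congr 1
          ring
  have hone : ∀ k : V → ℕ, ∑ x, k x ≤ n → ∃ g ∈ F1, (∀ x, ((∑ y ∈ N x, k y : ℕ) : ℝ) ≤ g x) ∧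
      ∑ x, g x ≤ d * (((∑ x, k x : ℕ) : ℝ) + D * ε1 * n) := by
    intro k hk
    let a : Fin D → V → ℕ := fun j x => if (j : ℕ) < k x then 1 else 0
    have ha : ∀ j x, a j x ≤ 1 := by
      intro j x
      show (if (j : ℕ) < k x then 1 else 0) ≤ 1
      split_ifs <;> norm_num
    have hg := fun j => hG2 (a j) (ha j)
    choose g hgG hgd hgs using hg
    let h : V → ℕ := fun x => k x - D
    have hlev : ∀ x, ∑ j : Fin D, a j x + h x = k x := by
      intro x
      have h1 := ModCF.levels D (k x)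
      rw [← Fin.sum_univ_eq_sum_range (fun j => if j < k x then 1 else 0)] at h1
      exact h1
    have hhS : h ∈ S := by
      constructor
      · rw [Nat.card_eq_fintype_card, Fintype.card_subtype]
        refine le_trans ?_ hk
        calc D * (Finset.univ.filter (fun x => h x ≠ 0)).card =
            ∑ x ∈ Finset.univ.filter (fun x => h x ≠ 0), D := by
              rw [Finset.sum_const, smul_eq_mul, mul_comm]
          _ ≤ ∑ x ∈ Finset.univ.filter (fun x => h x ≠ 0), k x := by
              apply Finset.sum_le_sum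
              intro x hx
              have : k x - D ≠ 0 := (Finset.mem_filter.mp hx).2
              omega
          _ ≤ ∑ x, k x := Finset.sum_le_sum_of_subset (Finset.filter_subset _ _)
      · have h1 : ∑ x, h x ≤ ∑ x, k x := Finset.sum_le_sum (fun x _ => Nat.sub_le _ _)
        show ∑ x, h x ≤ 4 * n
        omega
    refine ⟨fun x => ∑ j, g j x + ((∑ y ∈ N x, h y : ℕ) : ℝ), ?_, ?_, ?_⟩
    · refine Finset.mem_image.mpr ⟨(g, h), ?_, rfl⟩
      rw [Finset.mem_product]
      refine ⟨?_, ?_⟩
      · rw [Fintype.mem_piFinset]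
        exact fun j => hgG j
      · exact (Set.Finite.mem_toFinset hfin).mpr hhS
    · intro x
      have h1 : (∑ y ∈ N x, k y : ℕ) = ∑ j : Fin D, ∑ y ∈ N x, a j y + ∑ y ∈ N x, h y := by
        rw [Finset.sum_comm, ← Finset.sum_add_distrib]
        exact Finset.sum_congr rfl fun y _ => (hlev y).symm
      rw [h1]
      push_cast
      apply add_le_add _ le_rfl
      apply Finset.sum_le_sum
      intro j _
      have := hgd j x
      push_cast at this
      exact this
    · rw [Finset.sum_add_distrib, Finset.sum_comm]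
      have h1 : ∑ j : Fin D, ∑ x, g j x ≤ ∑ j : Fin D, (d * (((∑ x, a j x : ℕ) : ℝ) + ε1 * n)) :=
        Finset.sum_le_sum (fun j _ => hgs j)
      have h2 : ∑ x, ((∑ y ∈ N x, h y : ℕ) : ℝ) ≤ d * ((∑ x, h x : ℕ) : ℝ) := by
        have := ModCF.double_count N d hreg hsym h
        exact_mod_cast this
      have h3 : ((∑ x, k x : ℕ) : ℝ) = ∑ j : Fin D, ((∑ x, a j x : ℕ) : ℝ) + ((∑ x, h x : ℕ) : ℝ) := by
        have h4 : ∑ x, k x = ∑ j : Fin D, ∑ x, a j x + ∑ x, h x := by
          rw [Finset.sum_comm, ← Finset.sum_add_distrib]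
          exact Finset.sum_congr rfl fun y _ => (hlev y).symm
        exact_mod_cast h4
      rw [h3]
      have h5 : ∑ j : Fin D, ((d : ℝ) * (((∑ x, a j x : ℕ) : ℝ) + ε1 * n)) =
          d * (∑ j : Fin D, ((∑ x, a j x : ℕ) : ℝ) + D * ε1 * n) := by
        rw [← Finset.mul_sum, Finset.sum_add_distrib, Finset.sum_const, Finset.card_univ,
          Fintype.card_fin, nsmul_eq_mul]
        ring
      rw [h5] at h1
      linarith
  -- the family for several functions
  refine ⟨(Fintype.piFinset (fun _ : Θ => F1)).image (fun p => fun x θ => p θ x), ?_, ?_⟩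
  · have h1 : ((Fintype.piFinset (fun _ : Θ => F1)).image (fun p => fun x θ => p θ x)).card ≤
        F1.card ^ Fintype.card Θ := by
      refine le_trans Finset.card_image_le ?_
      rw [Fintype.card_piFinset, Finset.prod_const, Finset.card_univ]
    have h2 : ((((Fintype.piFinset (fun _ : Θ => F1)).image (fun p => fun x θ => p θ x)).card : ℕ) : ℝ) ≤
        (F1.card : ℝ) ^ Fintype.card Θ := by exact_mod_cast h1
    refine le_trans h2 ?_
    have hE1 : 1 ≤ Real.exp ((D * ε1 + ε') * n) := by
      exact Real.one_le_exp (by positivity)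
    calc (F1.card : ℝ) ^ Fintype.card Θ ≤ Real.exp ((D * ε1 + ε') * n) ^ Fintype.card Θ :=
          pow_le_pow_left₀ (Nat.cast_nonneg _) hF1 _
      _ ≤ Real.exp ((D * ε1 + ε') * n) ^ M := pow_le_pow_right₀ hE1 (by omega)
      _ = Real.exp (ε * n) := by
          rw [← Real.exp_nat_mul]
          congr 1
          rw [hε1, hε']
          field_simp
          ring
  · intro κ hκ
    have hk : ∀ θ, ∑ x, κ x θ ≤ n := by
      intro θ
      refine le_trans ?_ hκ
      apply Finset.sum_le_sum
      intro x _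
      exact Finset.single_le_sum (f := fun θ => κ x θ) (fun _ _ => Nat.zero_le _) (Finset.mem_univ θ)
    have hg := fun θ => hone (fun x => κ x θ) (hk θ)
    choose g hgF hgd hgs using hg
    refine ⟨fun x θ => g θ x, ?_, ?_, ?_⟩
    · refine Finset.mem_image.mpr ⟨g, ?_, rfl⟩
      rw [Fintype.mem_piFinset]
      exact hgF
    · intro x θ
      exact hgd θ x
    · rw [Finset.sum_comm]
      have h1 : ∑ θ, ∑ x, g θ x ≤ ∑ θ, ((d : ℝ) * (((∑ x, κ x θ : ℕ) : ℝ) + D * ε1 * n)) :=
        Finset.sum_le_sum (fun θ _ => hgs θ)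
      refine le_trans h1 ?_
      rw [← Finset.mul_sum, Finset.sum_add_distrib, Finset.sum_const, Finset.card_univ, nsmul_eq_mul]
      apply mul_le_mul_of_nonneg_left _ (Nat.cast_nonneg d)
      have h2 : ∑ θ, ((∑ x, κ x θ : ℕ) : ℝ) ≤ n := by
        rw [Finset.sum_comm] at hκ
        exact_mod_cast hκ
      have h3 : (Fintype.card Θ : ℝ) ≤ M := by
        have : Fintype.card Θ ≤ M := by omega
        exact_mod_cast this
      have h4 : (Fintype.card Θ : ℝ) * (D * ε1 * n) ≤ M * (D * ε1 * n) :=
        mul_le_mul_of_nonneg_right h3 (by positivity)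
      have h5 : (M : ℝ) * (D * ε1 * n) = ε / 2 * n := by
        rw [hε1]
        field_simp
      have h6 : (0 : ℝ) ≤ ε * n := by positivity
      linarith

end Pool.Agent.KS6_63.UST
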