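import Pool.Agent.KS6_63.UST.Defs

set_option autoImplicit false

open scoped BigOperators

namespace Pool.Agent.KS6_63.UST

namespace ModCN

/-- the weight of one value -/
noncomputable def w1 (q ρ : ℝ) (k : ℕ) : ℝ := if k = 0 then 1 else q * ρ ^ k

theorem w1_nonneg (q ρ : ℝ) (hq : 0 ≤ q) (hρ : 0 ≤ ρ) (k : ℕ) : 0 ≤ w1 q ρ k := by
  unfold w1
  split_ifs
  · exact zero_le_one
  · positivity

theorem w1_sum (q ρ ε : ℝ) (hq : 0 ≤ q) (hρ : 0 ≤ ρ) (hρ1 : ρ < 1) (hqe : q ≤ (1 - ρ) * (ε / 3))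
    (m : ℕ) : ∑ k ∈ Finset.range (m + 1), w1 q ρ k ≤ 1 + ε / 3 := by
  rw [Finset.sum_range_succ']
  have h0 : w1 q ρ 0 = 1 := by unfold w1; simp
  have h1 : ∀ k, w1 q ρ (k + 1) = q * ρ * ρ ^ k := by
    intro k
    unfold w1
    rw [if_neg (Nat.succ_ne_zero k), pow_succ]
    ring
  simp only [h0, h1]
  rw [← Finset.mul_sum]
  have h2 := mul_neg_geom_sum ρ m
  have h3 : 0 ≤ ρ ^ m := by positivity
  have h4 : 0 ≤ ∑ i ∈ Finset.range m, ρ ^ i := Finset.sum_nonneg (fun _ _ => by positivity)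
  have h5 : q * ρ ≤ q := by nlinarith
  have h6 : q * ρ * ∑ i ∈ Finset.range m, ρ ^ i ≤ ((1 - ρ) * (ε / 3)) * ∑ i ∈ Finset.range m, ρ ^ i :=
    mul_le_mul_of_nonneg_right (le_trans h5 hqe) h4
  have h7 : ((1 - ρ) * (ε / 3)) * ∑ i ∈ Finset.range m, ρ ^ i = (ε / 3) * (1 - ρ ^ m) := by
    rw [← h2]; ring
  have h8 : 0 ≤ ε / 3 := by
    have : 0 < 1 - ρ := by linarith
    nlinarith
  nlinarith

theorem w_prod {V : Type} [Fintype V] [DecidableEq V] (q ρ : ℝ) (h : V → ℕ) :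
    ∏ x, w1 q ρ (h x) =
      q ^ (Finset.univ.filter (fun x => h x ≠ 0)).card * ρ ^ (∑ x, h x) := by
  have h1 : ∀ x, w1 q ρ (h x) = (if h x ≠ 0 then q else 1) * ρ ^ (h x) := by
    intro x
    unfold w1
    by_cases hx : h x = 0
    · simp [hx]
    · rw [if_neg hx, if_pos hx]
  simp only [h1]
  rw [Finset.prod_mul_distrib, Finset.prod_pow_eq_pow_sum, Finset.prod_ite, Finset.prod_const,
    Finset.prod_const_one, mul_one]

end ModCN

theorem cn : StmtCN := by
  classical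
  intro ε hε
  set ρ := Real.exp (-(ε / 12)) with hρ
  have hρ0 : 0 < ρ := Real.exp_pos _
  have hρ1 : ρ < 1 := by
    rw [hρ, Real.exp_lt_one_iff]
    linarith
  set q := min (1 / 2) ((1 - ρ) * (ε / 3)) with hq
  have hq0 : 0 < q := lt_min (by norm_num) (mul_pos (by linarith) (by linarith))
  have hq1 : q ≤ 1 / 2 := min_le_left _ _
  have hqe : q ≤ (1 - ρ) * (ε / 3) := min_le_right _ _
  set D := ⌈3 * (-Real.log q) / ε⌉₊ + 1 with hD
  have hD1 : 3 * (-Real.log q) / ε ≤ D := by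
    rw [hD]
    push_cast
    exact le_trans (Nat.le_ceil _) (by linarith)
  have hD2 : -Real.log q ≤ D * (ε / 3) := by
    rw [div_le_iff₀ hε] at hD1
    linarith
  refine ⟨D, by omega, ?_⟩
  intro V _
  set n := Fintype.card V with hn
  set S : Set (V → ℕ) := {h : V → ℕ | D * Nat.card {x // h x ≠ 0} ≤ n ∧ ∑ x, h x ≤ 4 * n} with hS
  set T : Finset (V → ℕ) := Fintype.piFinset (fun _ : V => Finset.range (4 * n + 1)) with hT
  have hST : S ⊆ (T : Set (V → ℕ)) := by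
    intro h hh
    rw [Finset.mem_coe, hT, Fintype.mem_piFinset]
    intro x
    rw [Finset.mem_range]
    have h1 : h x ≤ ∑ x, h x := Finset.single_le_sum (fun _ _ => Nat.zero_le _) (Finset.mem_univ x)
    have h2 : ∑ x, h x ≤ 4 * n := hh.2
    omega
  have hfin : S.Finite := T.finite_toSet.subset hST
  refine ⟨hfin, ?_⟩
  rw [Set.ncard_eq_toFinset_card S hfin]
  have hlow : ∀ h ∈ hfin.toFinset, Real.exp (-(2 * (ε * n) / 3)) ≤ ∏ x, ModCN.w1 q ρ (h x) := by
    intro h hh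
    rw [Set.Finite.mem_toFinset] at hh
    obtain ⟨hh1, hh2⟩ := hh
    rw [Nat.card_eq_fintype_card, Fintype.card_subtype] at hh1
    rw [ModCN.w_prod]
    set s := (Finset.univ.filter (fun x => h x ≠ 0)).card with hs
    have h1 : Real.exp (-(ε * n / 3)) ≤ q ^ s := by
      have h2 : q ^ s = Real.exp (s * Real.log q) := by
        rw [mul_comm, Real.exp_mul, Real.exp_log hq0, Real.rpow_natCast]
      rw [h2]
      apply Real.exp_le_exp.mpr
      have h3 : (D : ℝ) * s ≤ n := by exact_mod_cast hh1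
      have h4 : (s : ℝ) * (-Real.log q) ≤ s * (D * (ε / 3)) :=
        mul_le_mul_of_nonneg_left hD2 (Nat.cast_nonneg _)
      nlinarith
    have h2 : Real.exp (-(ε * n / 3)) ≤ ρ ^ (∑ x, h x) := by
      have h3 : ρ ^ (4 * n) ≤ ρ ^ (∑ x, h x) := pow_le_pow_of_le_one hρ0.le hρ1.le hh2
      refine le_trans (le_of_eq ?_) h3
      rw [hρ, ← Real.exp_nat_mul]
      congr 1
      push_cast
      ring
    calc Real.exp (-(2 * (ε * n) / 3)) = Real.exp (-(ε * n / 3)) * Real.exp (-(ε * n / 3)) := by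
          rw [← Real.exp_add]
          congr 1
          ring
      _ ≤ _ := mul_le_mul h1 h2 (Real.exp_pos _).le (by positivity)
  have hsum : ∑ h ∈ hfin.toFinset, ∏ x, ModCN.w1 q ρ (h x) ≤ (1 + ε / 3) ^ n := by
    have h1 : ∑ h ∈ hfin.toFinset, ∏ x, ModCN.w1 q ρ (h x) ≤ ∑ h ∈ T, ∏ x, ModCN.w1 q ρ (h x) := by
      apply Finset.sum_le_sum_of_subset_of_nonneg
      · intro h hh
        rw [Set.Finite.mem_toFinset] at hh
        exact Finset.mem_coe.mp (hST hh)
      · intro h _ _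
        exact Finset.prod_nonneg (fun x _ => ModCN.w1_nonneg q ρ hq0.le hρ0.le _)
    refine le_trans h1 ?_
    rw [hT, ← Finset.prod_univ_sum]
    rw [Finset.prod_const, Finset.card_univ, ← hn]
    apply pow_le_pow_left₀
    · exact Finset.sum_nonneg (fun k _ => ModCN.w1_nonneg q ρ hq0.le hρ0.le k)
    · exact ModCN.w1_sum q ρ ε hq0.le hρ0.le hρ1 hqe (4 * n)
  have hexp : (1 + ε / 3) ^ n ≤ Real.exp (ε * n / 3) := by
    have h1 : 1 + ε / 3 ≤ Real.exp (ε / 3) := by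
      have := Real.add_one_le_exp (ε / 3)
      linarith
    calc (1 + ε / 3) ^ n ≤ (Real.exp (ε / 3)) ^ n := pow_le_pow_left₀ (by positivity) h1 n
      _ = Real.exp (ε * n / 3) := by
        rw [← Real.exp_nat_mul]
        congr 1
        ring
  have hcount : (hfin.toFinset.card : ℝ) * Real.exp (-(2 * (ε * n) / 3)) ≤ Real.exp (ε * n / 3) := by
    calc (hfin.toFinset.card : ℝ) * Real.exp (-(2 * (ε * n) / 3)) =
        ∑ h ∈ hfin.toFinset, Real.exp (-(2 * (ε * n) / 3)) := by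
          rw [Finset.sum_const, nsmul_eq_mul]
      _ ≤ ∑ h ∈ hfin.toFinset, ∏ x, ModCN.w1 q ρ (h x) := Finset.sum_le_sum hlow
      _ ≤ _ := hsum
      _ ≤ _ := hexp
  have h2 : Real.exp (ε * n) = Real.exp (ε * n / 3) * Real.exp (2 * (ε * n) / 3) := by
    rw [← Real.exp_add]
    congr 1
    ring
  rw [h2]
  have h3 : (hfin.toFinset.card : ℝ) = ((hfin.toFinset.card : ℝ) *
      Real.exp (-(2 * (ε * n) / 3))) * Real.exp (2 * (ε * n) / 3) := by
    rw [mul_assoc, ← Real.exp_add, neg_add_cancel, Real.exp_zero, mul_one]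
  rw [h3]
  exact mul_le_mul_of_nonneg_right hcount (Real.exp_pos _).le

end Pool.Agent.KS6_63.UST
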