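import Pool.Agent.KS6_63.UST.Defs

/-! # Project ST, module CT: the number of embeddings dominated by `g` -/

set_option autoImplicit false

namespace Pool.Agent.KS6_63.UST

namespace ModCT

/-- A finite set is at most the number of the values of a function times the size of the fibres. -/
theorem card_fib {A Y : Type} [DecidableEq Y] (s : Finset A) (ρ : A → Y) (a M : ℝ)
    (hM : 0 ≤ M) (h1 : ((s.image ρ).card : ℝ) ≤ a)
    (h2 : ∀ y ∈ s.image ρ, ((s.filter fun x => ρ x = y).card : ℝ) ≤ M) :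
    (s.card : ℝ) ≤ a * M := by
  rw [Finset.card_eq_sum_card_image ρ s]
  push_cast
  calc ∑ y ∈ s.image ρ, ((s.filter fun x => ρ x = y).card : ℝ) ≤ ∑ _y ∈ s.image ρ, M :=
        Finset.sum_le_sum h2
    _ = (s.image ρ).card * M := by rw [Finset.sum_const, nsmul_eq_mul]
    _ ≤ a * M := mul_le_mul_of_nonneg_right h1 hM

theorem card_image_coe {A Y : Type} [DecidableEq Y] (s : Finset A) (ρ : A → Y) :
    ((ρ '' (s : Set A)).ncard : ℝ) = ((s.image ρ).card : ℝ) := by
  rw [← Finset.coe_image, Set.ncard_coe_finset]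

/-- The bound for one column. -/
theorem bb_le {W : Type} [Finite W] (P Q : W → Prop) (b : ℝ → ℝ) (y : ℝ)
    (hb : ∀ (c : ℕ) (y : ℝ), (c : ℝ) ≤ y → bb c ≤ b y) (hPQ : ∀ t, P t → Q t)
    (hQ : (Nat.card {t // Q t} : ℝ) ≤ y) : bb (Nat.card {t // P t}) ≤ b y := by
  refine hb _ _ (le_trans ?_ hQ)
  have : Nat.card {t // P t} ≤ Nat.card {t // Q t} := by
    refine Nat.card_le_card_of_injective (fun t => ⟨t.1, hPQ t.1 t.2⟩) ?_
    intro t t' h
    exact Subtype.ext (congrArg (fun u : {t // Q t} => u.1) h)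
  exact_mod_cast this

theorem bb_nonneg (c : ℕ) : 0 ≤ bb c := by
  unfold bb
  positivity

end ModCT

open ModCT in
theorem ct (hPH : StmtPH) : StmtCT := by
  intro V W Θ _ _ _ N r par dep vt idx z hdep hTS Z g b hb hb1
  classical
  -- the set of the embeddings
  set Φ : Finset (W ≃ V) := Finset.univ.filter fun φ => (∀ t, t ≠ r → φ (par t) ∈ N (φ t)) ∧
    (∀ x θ, (Nat.card {t // t ≠ r ∧ vt t = θ ∧ φ (par t) ∈ N x} : ℝ) ≤ g x θ) ∧
    (fun y => z (φ.symm y)) ∈ Z with hΦ
  have hcard : Nat.card {φ : W ≃ V // (∀ t, t ≠ r → φ (par t) ∈ N (φ t)) ∧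
    (∀ x θ, (Nat.card {t // t ≠ r ∧ vt t = θ ∧ φ (par t) ∈ N x} : ℝ) ≤ g x θ) ∧
    (fun y => z (φ.symm y)) ∈ Z} = Φ.card := by
    rw [Nat.card_eq_fintype_card, Fintype.card_subtype]
  rw [hcard]
  have hmemΦ : ∀ φ ∈ Φ, (∀ t, t ≠ r → φ (par t) ∈ N (φ t)) ∧
    (∀ x θ, (Nat.card {t // t ≠ r ∧ vt t = θ ∧ φ (par t) ∈ N x} : ℝ) ≤ g x θ) ∧
    (fun y => z (φ.symm y)) ∈ Z := by
    intro φ hφ
    exact (Finset.mem_filter.1 hφ).2
  -- one class
  have hclass : ∀ (τ : V → Option Θ) (ζ : V → ℕ) (xr : V),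
      ((Φ.filter fun φ => (fun x => vt (φ.symm x)) = τ ∧ (fun y => z (φ.symm y)) = ζ ∧
        φ r = xr).card : ℝ) ≤ ∏ x, b (g x (τ x)) := by
    intro τ ζ xr
    set F1 : Finset (W ≃ V) := Φ.filter fun φ => (fun x => vt (φ.symm x)) = τ ∧
      (fun y => z (φ.symm y)) = ζ ∧ φ r = xr with hF1
    have hF : ∀ φ ∈ F1, φ ∈ Φ ∧ (∀ x, vt (φ.symm x) = τ x) ∧ (∀ y, z (φ.symm y) = ζ y) ∧
        φ r = xr := by
      intro φ hφ
      obtain ⟨h1, h2, h3, h4⟩ := Finset.mem_filter.1 hφ
      exact ⟨h1, fun x => congrFun h2 x, fun y => congrFun h3 y, h4⟩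
    have hvt : ∀ φ ∈ F1, ∀ t, vt t = τ (φ t) := by
      intro φ hφ t
      have := (hF φ hφ).2.1 (φ t)
      rwa [Equiv.symm_apply_apply] at this
    -- the restriction to the large vertices
    set B1 : Set W := {t | vt t = none ∧ t ≠ r} with hB1
    set B2 : Set W := {t | vt t ≠ none} with hB2
    set C1 : Finset V := Finset.univ.filter fun x => τ x = none ∧ x ≠ xr with hC1
    set C2 : Finset V := Finset.univ.filter fun x => τ x ≠ none with hC2
    have hsym : ∀ φ ∈ F1, ∀ x, φ.symm x = r ↔ x = xr := by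
      intro φ hφ x
      rw [Equiv.symm_apply_eq, (hF φ hφ).2.2.2]
    have hm1 : ∀ φ ∈ F1, ∀ x, φ.symm x ∈ B1 ↔ τ x = none ∧ x ≠ xr := by
      intro φ hφ x
      simp only [hB1, Set.mem_ofPred_eq]
      rw [(hF φ hφ).2.1 x, Ne, hsym φ hφ x]
    have hm2 : ∀ φ ∈ F1, ∀ x, φ.symm x ∈ B2 ↔ τ x ≠ none := by
      intro φ hφ x
      simp only [hB2, Set.mem_ofPred_eq]
      rw [(hF φ hφ).2.1 x]
    have hprod0 : ∀ s : Finset V, 0 ≤ ∏ x ∈ s, b (g x (τ x)) := fun s =>
      Finset.prod_nonneg fun x _ => le_trans zero_le_one (hb1 x (τ x))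
    have hP1 : (((F1.image fun (φ : W ≃ V) (t : B1) => φ t).card : ℕ) : ℝ) ≤
        ∏ x ∈ C1, b (g x (τ x)) := by
      rcases F1.eq_empty_or_nonempty with he | ⟨φ₀, h0⟩
      · rw [he]
        simpa using hprod0 C1
      · rw [← card_image_coe]
        have := hPH V W (Option Θ) N par dep idx vt B1 (F1 : Set (W ≃ V)) φ₀ C1
          (Finset.mem_coe.2 h0)
          (by
            intro x
            rw [hm1 φ₀ h0 x]
            simp only [hC1, Finset.mem_filter, Finset.mem_univ, true_and])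
          (fun t ht => hdep t ht.2)
          (fun t ht t' ht' hp hi => hTS.inj t t' ht.2 ht'.2 hp
            ⟨fun _ => ht'.1, fun _ => ht.1⟩ hi)
          (fun φ hφ t ht => (hmemΦ φ (hF φ (Finset.mem_coe.1 hφ)).1).1 t ht.2)
          (fun φ hφ x => by rw [hm1 φ (Finset.mem_coe.1 hφ) x, hm1 φ₀ h0 x])
          (fun φ hφ x _ => by
            rw [(hF φ (Finset.mem_coe.1 hφ)).2.1 x, (hF φ₀ h0).2.1 x])
          (fun φ hφ t ht hpt => by
            have h1 : vt (par t) = none := hTS.up t ht.2 ht.1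
            have h2 : par t = r := by
              by_contra hcon
              exact hpt ⟨h1, hcon⟩
            rw [h2, (hF φ (Finset.mem_coe.1 hφ)).2.2.2, (hF φ₀ h0).2.2.2])
          (fun φ hφ t ht => by
            have hφ' := Finset.mem_coe.1 hφ
            have h1 : vt (par t) = none := hTS.up t ht.2 ht.1
            obtain ⟨t', c1, c2, c3, c4⟩ := hTS.large (par t) (φ₀.symm (φ (par t))) t h1
              (by rw [(hF φ₀ h0).2.1, ← hvt φ hφ', h1])
              (by
                rw [(hF φ₀ h0).2.2.1, ← (hF φ hφ').2.2.1, Equiv.symm_apply_apply])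
              ht.2 rfl ht.1
            refine ⟨t', ⟨c4, c1⟩, ?_, c3, by rw [c4, ht.1]⟩
            rw [c2, Equiv.apply_symm_apply])
        refine le_trans this ?_
        refine Finset.prod_le_prod (fun x _ => bb_nonneg _) fun x hx => ?_
        refine bb_le _ (fun t => t ≠ r ∧ vt t = τ x ∧ φ₀ (par t) ∈ N x) b _ hb ?_
          ((hmemΦ φ₀ (hF φ₀ h0).1).2.1 x (τ x))
        rintro t ⟨t1, t2, t3⟩
        exact ⟨t1.2, by rw [t3, (hF φ₀ h0).2.1], t2⟩
    -- the fibres
    have hP2 : ∀ ψ ∈ F1.image (fun (φ : W ≃ V) (t : B1) => φ t),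
        (((F1.filter fun φ => (fun (t : B1) => φ t) = ψ).card : ℕ) : ℝ) ≤
        ∏ x ∈ C2, b (g x (τ x)) := by
      intro ψ _
      set F2 : Finset (W ≃ V) := F1.filter fun φ => (fun (t : B1) => φ t) = ψ with hF2
      have hF2' : ∀ φ ∈ F2, φ ∈ F1 ∧ ∀ t (ht : t ∈ B1), φ t = ψ ⟨t, ht⟩ := by
        intro φ hφ
        obtain ⟨h1, h2⟩ := Finset.mem_filter.1 hφ
        exact ⟨h1, fun t ht => congrFun h2 ⟨t, ht⟩⟩
      -- agreement outside of `B2`
      have hagree : ∀ φ ∈ F2, ∀ φ' ∈ F2, ∀ t, t ∉ B2 → φ t = φ' t := by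
        intro φ hφ φ' hφ' t ht
        have hvn : vt t = none := by
          by_contra hcon
          exact ht hcon
        by_cases htr : t = r
        · rw [htr, (hF φ (hF2' φ hφ).1).2.2.2, (hF φ' (hF2' φ' hφ').1).2.2.2]
        · rw [(hF2' φ hφ).2 t ⟨hvn, htr⟩, (hF2' φ' hφ').2 t ⟨hvn, htr⟩]
      rcases F2.eq_empty_or_nonempty with he | ⟨φ₀, h0⟩
      · rw [he]
        simpa using hprod0 C2
      · have h01 := (hF2' φ₀ h0).1
        have hinj : F2.card = (F2.image fun (φ : W ≃ V) (t : B2) => φ t).card := by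
          symm
          refine Finset.card_image_of_injOn ?_
          intro φ hφ φ' hφ' h
          have hφ1 := Finset.mem_coe.1 hφ
          have hφ2 := Finset.mem_coe.1 hφ'
          refine Equiv.ext fun t => ?_
          by_cases ht : t ∈ B2
          · exact congrFun h ⟨t, ht⟩
          · exact hagree φ hφ1 φ' hφ2 t ht
        rw [hinj, ← card_image_coe]
        have hne : ∀ t ∈ B2, t ≠ r := by
          intro t ht htr
          exact ht (by rw [htr]; exact hTS.root)
        have := hPH V W (Option Θ) N par dep idx vt B2 (F2 : Set (W ≃ V)) φ₀ C2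
          (Finset.mem_coe.2 h0)
          (by
            intro x
            rw [hm2 φ₀ h01 x]
            simp only [hC2, Finset.mem_filter, Finset.mem_univ, true_and])
          (fun t ht => hdep t (hne t ht))
          (fun t ht t' ht' hp hi => hTS.inj t t' (hne t ht) (hne t' ht') hp
            ⟨fun h => absurd h ht, fun h => absurd h ht'⟩ hi)
          (fun φ hφ t ht =>
            (hmemΦ φ (hF φ (hF2' φ (Finset.mem_coe.1 hφ)).1).1).1 t (hne t ht))
          (fun φ hφ x => by rw [hm2 φ (hF2' φ (Finset.mem_coe.1 hφ)).1 x, hm2 φ₀ h01 x])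
          (fun φ hφ x _ => by
            rw [(hF φ (hF2' φ (Finset.mem_coe.1 hφ)).1).2.1 x, (hF φ₀ h01).2.1 x])
          (fun φ hφ t ht hpt => hagree φ (Finset.mem_coe.1 hφ) φ₀ h0 (par t) hpt)
          (fun φ hφ t ht => by
            have hφ' := Finset.mem_coe.1 hφ
            by_cases hu : par t ∈ B2
            · obtain ⟨t', c1, c2, c3, c4⟩ := hTS.small (par t) (φ₀.symm (φ (par t))) t hu
                (by rw [(hF φ₀ h01).2.1, ← hvt φ (hF2' φ hφ').1]) (hne t ht) rfl
              refine ⟨t', ?_, ?_, c3, c4⟩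
              · change vt t' ≠ none
                rw [c4]; exact ht
              · rw [c2, Equiv.apply_symm_apply]
            · exact ⟨t, ht, (hagree φ hφ' φ₀ h0 (par t) hu).symm, rfl, rfl⟩)
        refine le_trans this ?_
        refine Finset.prod_le_prod (fun x _ => bb_nonneg _) fun x hx => ?_
        refine bb_le _ (fun t => t ≠ r ∧ vt t = τ x ∧ φ₀ (par t) ∈ N x) b _ hb ?_
          ((hmemΦ φ₀ (hF φ₀ h01).1).2.1 x (τ x))
        rintro t ⟨t1, t2, t3⟩
        exact ⟨hne t t1, by rw [t3, (hF φ₀ h01).2.1], t2⟩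
    have hmul := card_fib F1 (fun (φ : W ≃ V) (t : B1) => φ t) _ _ (hprod0 C2) hP1 hP2
    refine le_trans hmul ?_
    have hdisj : Disjoint C1 C2 := by
      rw [Finset.disjoint_left]
      intro x hx hx'
      exact (Finset.mem_filter.1 hx').2 (Finset.mem_filter.1 hx).2.1
    rw [← Finset.prod_union hdisj]
    rw [← Finset.prod_sdiff (Finset.subset_univ (C1 ∪ C2))]
    have hone : 1 ≤ ∏ x ∈ Finset.univ \ (C1 ∪ C2), b (g x (τ x)) := by
      have := Finset.prod_le_prod (s := Finset.univ \ (C1 ∪ C2)) (f := fun _ => (1 : ℝ))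
        (g := fun x => b (g x (τ x))) (fun _ _ => zero_le_one) (fun x _ => hb1 x (τ x))
      simpa using this
    exact le_mul_of_one_le_left (hprod0 _) hone
  -- the sum over all classes
  have hsplit : Φ.card = ∑ d ∈ (Finset.univ : Finset (V → Option Θ)) ×ˢ (Z ×ˢ (Finset.univ : Finset V)),
      (Φ.filter fun φ => ((fun x => vt (φ.symm x)), (fun y => z (φ.symm y)), φ r) = d).card := by
    refine Finset.card_eq_sum_card_fiberwise ?_
    intro φ hφ
    simp only [Finset.coe_product, Finset.coe_univ, Set.mem_prod, Set.mem_univ, true_and, and_true]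
    exact (hmemΦ φ (Finset.mem_coe.1 hφ)).2.2
  rw [hsplit]
  push_cast
  rw [Finset.sum_product]
  have h1 : ∀ τ : V → Option Θ, ∑ d ∈ Z ×ˢ (Finset.univ : Finset V),
      ((Φ.filter fun φ => ((fun x => vt (φ.symm x)), (fun y => z (φ.symm y)), φ r) =
        (τ, d)).card : ℝ) ≤ (Z.card * Fintype.card V) * ∏ x, b (g x (τ x)) := by
    intro τ
    refine le_trans (Finset.sum_le_sum (g := fun _ => ∏ x, b (g x (τ x))) ?_) ?_
    · rintro ⟨ζ, xr⟩ _
      refine le_trans (le_of_eq ?_) (hclass τ ζ xr)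
      congr 2
      ext φ
      simp only [Finset.mem_filter, Prod.mk.injEq]
    · rw [Finset.sum_const, Finset.card_product, nsmul_eq_mul, Finset.card_univ]
      push_cast
      exact le_rfl
  refine le_trans (Finset.sum_le_sum fun τ _ => h1 τ) ?_
  rw [← Finset.mul_sum]
  refine le_of_eq ?_
  congr 1
  rw [Finset.prod_univ_sum, Fintype.piFinset_univ]

end Pool.Agent.KS6_63.UST
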