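import Pool.Agent.KS6_63.UST.Defs

set_option autoImplicit false

/-!
# Module CV: domination by a small family
-/

namespace Pool.Agent.KS6_63.UST

open Finset

namespace ModCV

section

variable {V : Type} [Fintype V] [DecidableEq V] (N : V → Finset V) (d : ℕ)

/-- the number of neighbours in `R` -/
def c (R : Finset V) (x : V) : ℝ := ((N x ∩ R).card : ℝ)

theorem c_insert {A : Finset V} {y : V} (hy : y ∉ A) (x : V) :
    c N (insert y A) x = c N A x + if y ∈ N x then 1 else 0 := by
  unfold c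
  split_ifs with h
  · rw [inter_insert_of_mem h, card_insert_of_notMem]
    · push_cast
      rfl
    · exact fun h' => hy (mem_inter.mp h').2
  · rw [inter_insert_of_notMem h, add_zero]

theorem c_sum (hcard : ∀ x, (N x).card ≤ d) (hsym : ∀ x y, y ∈ N x ↔ x ∈ N y) (R : Finset V) :
    ∑ x, c N R x ≤ d * R.card := by
  have h1 : ∀ x, c N R x = ∑ y ∈ R, if y ∈ N x then (1 : ℝ) else 0 := by
    intro x
    unfold c
    rw [← sum_filter, sum_const, nsmul_eq_mul, mul_one]
    congr 2
    ext y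
    rw [mem_inter, mem_filter, and_comm]
  simp_rw [h1]
  rw [sum_comm]
  have h2 : ∀ y ∈ R, ∑ x : V, (if y ∈ N x then (1 : ℝ) else 0) ≤ d := by
    intro y _
    have h3 : (((N y).card : ℕ) : ℝ) ≤ d := by exact_mod_cast hcard y
    refine le_trans (le_of_eq ?_) h3
    rw [← sum_filter, sum_const, nsmul_eq_mul, mul_one]
    congr 2
    ext x
    rw [mem_filter, hsym x y]
    simp
  refine (sum_le_sum h2).trans ?_
  rw [sum_const, nsmul_eq_mul, mul_comm]

theorem sample (hcard : ∀ x, (N x).card ≤ d) (hsym : ∀ x y, y ∈ N x ↔ x ∈ N y) (q : ℝ)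
    (hq : 1 ≤ q) (A : Finset V) :
    ∃ R ⊆ A, ∑ x, (q * c N R x - c N A x) ^ 2 + d * (q * R.card - A.card) ^ 2 ≤
      A.card * ((q - 1) * (2 * d)) := by
  induction A using Finset.induction with
  | empty =>
    refine ⟨∅, subset_rfl, ?_⟩
    simp [c]
  | insert y A hy ih =>
    obtain ⟨R, hR, h⟩ := ih
    have hyR : y ∉ R := fun h' => hy (hR h')
    obtain ⟨w, hw⟩ : ∃ w : V → ℝ, w = fun x => if y ∈ N x then 1 else 0 := ⟨_, rfl⟩
    obtain ⟨u, hu⟩ : ∃ u : V → ℝ, u = fun x => q * c N R x - c N A x := ⟨_, rfl⟩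
    have hu' : ∑ x, (q * c N R x - c N A x) ^ 2 = ∑ x, u x ^ 2 := by rw [hu]
    have hw2 : ∑ x, w x ^ 2 ≤ d := by
      have h3 : (((N y).card : ℕ) : ℝ) ≤ d := by exact_mod_cast hcard y
      refine le_trans (le_of_eq ?_) h3
      rw [hw]
      have h1 : ∀ x : V, (if y ∈ N x then (1 : ℝ) else 0) ^ 2 = if y ∈ N x then 1 else 0 := by
        intro x
        split_ifs <;> norm_num
      simp_rw [h1]
      rw [← sum_filter, sum_const, nsmul_eq_mul, mul_one]
      congr 2
      ext x
      rw [mem_filter, hsym x y]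
      simp
    have e1 : ∑ x, (q * c N (insert y R) x - c N (insert y A) x) ^ 2 =
        ∑ x, u x ^ 2 + 2 * (q - 1) * ∑ x, u x * w x + (q - 1) ^ 2 * ∑ x, w x ^ 2 := by
      rw [mul_sum, mul_sum, ← sum_add_distrib, ← sum_add_distrib]
      refine sum_congr rfl fun x _ => ?_
      rw [c_insert N hyR, c_insert N hy, hu, hw]
      simp only
      ring
    have e2 : ∑ x, (q * c N R x - c N (insert y A) x) ^ 2 =
        ∑ x, u x ^ 2 - 2 * ∑ x, u x * w x + ∑ x, w x ^ 2 := by
      rw [mul_sum, ← sum_sub_distrib, ← sum_add_distrib]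
      refine sum_congr rfl fun x _ => ?_
      rw [c_insert N hy, hu, hw]
      simp only
      ring
    have ca : (((insert y A).card : ℕ) : ℝ) = A.card + 1 := by
      rw [card_insert_of_notMem hy]; push_cast; rfl
    have cr : (((insert y R).card : ℕ) : ℝ) = R.card + 1 := by
      rw [card_insert_of_notMem hyR]; push_cast; rfl
    by_contra hcon
    push Not at hcon
    have h1 := hcon (insert y R) (insert_subset_insert y hR)
    have h2 := hcon R (hR.trans (subset_insert y A))
    rw [e1, ca, cr] at h1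
    rw [e2, ca] at h2
    rw [hu'] at h
    obtain ⟨U, hU⟩ : ∃ U : ℝ, U = ∑ x, u x ^ 2 := ⟨_, rfl⟩
    obtain ⟨X, hX⟩ : ∃ X : ℝ, X = ∑ x, u x * w x := ⟨_, rfl⟩
    obtain ⟨W, hW⟩ : ∃ W : ℝ, W = ∑ x, w x ^ 2 := ⟨_, rfl⟩
    obtain ⟨s, hs⟩ : ∃ s : ℝ, s = q * (R.card : ℝ) - A.card := ⟨_, rfl⟩
    rw [← hU, ← hX, ← hW] at h1 h2
    rw [← hU, ← hs] at h
    rw [← hW] at hw2
    have s1 : q * ((R.card : ℝ) + 1) - (A.card + 1) = s + (q - 1) := by rw [hs]; ring
    have s2 : q * (R.card : ℝ) - (A.card + 1) = s - 1 := by rw [hs]; ring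
    rw [s1] at h1
    rw [s2] at h2
    have hq1 : 0 ≤ q - 1 := by linarith
    have h3 : (q - 1) * (((A.card : ℝ) + 1) * ((q - 1) * (2 * d))) ≤
        (q - 1) * (U - 2 * X + W + d * (s - 1) ^ 2) :=
      mul_le_mul_of_nonneg_left h2.le hq1
    have h4 : q * (U + d * s ^ 2) ≤ q * (A.card * ((q - 1) * (2 * d))) :=
      mul_le_mul_of_nonneg_left h (by linarith)
    have h5 : q * (q - 1) * W ≤ q * (q - 1) * d :=
      mul_le_mul_of_nonneg_left hw2 (by positivity)
    have e3 : (U + 2 * (q - 1) * X + (q - 1) ^ 2 * W + d * (s + (q - 1)) ^ 2) +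
        (q - 1) * (U - 2 * X + W + d * (s - 1) ^ 2) =
        q * (U + d * s ^ 2) + q * (q - 1) * W + q * (q - 1) * d := by ring
    have e4 : (((A.card : ℝ) + 1) * ((q - 1) * (2 * d))) +
        (q - 1) * (((A.card : ℝ) + 1) * ((q - 1) * (2 * d))) =
        q * (A.card * ((q - 1) * (2 * d))) + q * (q - 1) * d + q * (q - 1) * d := by ring
    linarith

end

end ModCV

open ModCV in
theorem cv (hCN : StmtCN) : StmtCV := by
  classical
  intro ε₀ hε₀
  obtain ⟨ε, hε, hε1, hεε⟩ : ∃ ε : ℝ, 0 < ε ∧ ε ≤ 1 ∧ ε ≤ ε₀ :=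
    ⟨min ε₀ 1, lt_min hε₀ one_pos, min_le_right _ _, min_le_left _ _⟩
  obtain ⟨D, hD, hS⟩ := hCN (ε / 2) (by positivity)
  have hDr : (1 : ℝ) ≤ D := by exact_mod_cast hD
  obtain ⟨q, hq⟩ : ∃ q : ℝ, q = 2 * D := ⟨_, rfl⟩
  have hq1 : 1 ≤ q := by rw [hq]; linarith
  have hq0 : 0 < q := by linarith
  obtain ⟨δ, hδ⟩ : ∃ δ : ℝ, δ = ε / 4 := ⟨_, rfl⟩
  have hδ0 : 0 < δ := by rw [hδ]; positivity
  obtain ⟨d₀, hd₀⟩ := exists_nat_ge (2 * q / δ ^ 2 + D * (2 * q) / δ ^ 2 +
    4 * (2 * q) / (δ ^ 2 * ε) + 1)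
  refine ⟨d₀, fun d hd V _ N hnV hcard hsym => ?_⟩
  have hdr : (d₀ : ℝ) ≤ d := by exact_mod_cast hd
  have hnr : (d₀ : ℝ) ≤ Fintype.card V := by exact_mod_cast hnV
  have p1 : 0 < 2 * q / δ ^ 2 := by positivity
  have p2 : 0 < D * (2 * q) / δ ^ 2 := by positivity
  have p3 : 0 < 4 * (2 * q) / (δ ^ 2 * ε) := by positivity
  have hd0 : (0 : ℝ) < d := by linarith
  have b1 : 2 * q ≤ δ ^ 2 * Fintype.card V := by
    have : 2 * q / δ ^ 2 ≤ Fintype.card V := by linarith
    rw [div_le_iff₀ (by positivity)] at this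
    linarith
  have b2 : D * (2 * q) ≤ δ ^ 2 * d := by
    have : D * (2 * q) / δ ^ 2 ≤ d := by linarith
    rw [div_le_iff₀ (by positivity)] at this
    linarith
  have b3 : 4 * (2 * q) ≤ δ ^ 2 * ε * d := by
    have : 4 * (2 * q) / (δ ^ 2 * ε) ≤ d := by linarith
    rw [div_le_iff₀ (by positivity)] at this
    linarith
  obtain ⟨hfin, hcardS⟩ := hS V
  obtain ⟨n, hn⟩ : ∃ n : ℝ, n = Fintype.card V := ⟨_, rfl⟩
  have hn0 : 0 ≤ n := by rw [hn]; positivity
  let fam : (V → ℕ) × (V → ℕ) → V → ℝ := fun h x =>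
    if h.2 x ≠ 0 then (d : ℝ) else q * ((∑ y ∈ N x, h.1 y : ℕ) : ℝ) + δ * d
  refine ⟨(hfin.toFinset ×ˢ hfin.toFinset).image fam, ?_, ?_⟩
  · have h1 : (((hfin.toFinset ×ˢ hfin.toFinset).image fam).card : ℝ) ≤
        (hfin.toFinset.card : ℝ) * hfin.toFinset.card := by
      have := card_image_le (s := hfin.toFinset ×ˢ hfin.toFinset) (f := fam)
      rw [card_product] at this
      exact_mod_cast this
    rw [Set.ncard_eq_toFinset_card _ hfin] at hcardS
    rw [← hn] at hcardS ⊢
    have h2 : Real.exp (ε / 2 * n) * Real.exp (ε / 2 * n) = Real.exp (ε * n) := by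
      rw [← Real.exp_add]
      congr 1
      ring
    have h3 : Real.exp (ε * n) ≤ Real.exp (ε₀ * n) :=
      Real.exp_le_exp.mpr (mul_le_mul_of_nonneg_right hεε hn0)
    have h4 : (hfin.toFinset.card : ℝ) * hfin.toFinset.card ≤
        Real.exp (ε / 2 * n) * Real.exp (ε / 2 * n) :=
      mul_le_mul hcardS hcardS (Nat.cast_nonneg _) (Real.exp_pos _).le
    linarith
  · intro a ha
    obtain ⟨A, hA⟩ : ∃ A : Finset V, A = univ.filter fun x => a x = 1 := ⟨_, rfl⟩
    have haA : ∀ x, a x = if x ∈ A then 1 else 0 := by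
      intro x
      rw [hA]
      simp only [mem_filter, mem_univ, true_and]
      have := ha x
      split_ifs with h
      · exact h
      · omega
    have hsumA : ∀ T : Finset V, ∑ y ∈ T, a y = (T ∩ A).card := by
      intro T
      simp_rw [haA]
      rw [← sum_filter, sum_const, smul_eq_mul, mul_one, filter_mem_eq_inter]
    have hAn : (A.card : ℝ) ≤ n := by
      rw [hn]
      exact_mod_cast card_le_univ A
    obtain ⟨R, hRA, hR⟩ := sample N d hcard hsym q hq1 A
    have hR' : ∑ x, (q * c N R x - c N A x) ^ 2 + d * (q * R.card - A.card) ^ 2 ≤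
        n * (2 * q * d) := by
      refine hR.trans ?_
      apply mul_le_mul hAn _ (by
        have : 0 ≤ q - 1 := by linarith
        positivity) hn0
      have : (q - 1) * (2 * (d : ℝ)) ≤ q * (2 * d) :=
        mul_le_mul_of_nonneg_right (by linarith) (by positivity)
      linarith
    have hE : ∑ x, (q * c N R x - c N A x) ^ 2 ≤ n * (2 * q * d) := by
      have : 0 ≤ (d : ℝ) * (q * R.card - A.card) ^ 2 := by positivity
      linarith
    have hsumR := c_sum N d hcard hsym R
    -- the size of `R`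
    have hRq : q * R.card - A.card ≤ δ * n := by
      have h1 : (d : ℝ) * (q * R.card - A.card) ^ 2 ≤ d * (δ * n) ^ 2 := by
        have h2 : 0 ≤ ∑ x, (q * c N R x - c N A x) ^ 2 := sum_nonneg fun x _ => sq_nonneg _
        have h3 : (d : ℝ) * (q * R.card - A.card) ^ 2 ≤ n * (2 * q * d) := by linarith
        refine h3.trans ?_
        have h4 : n * (2 * q * d) ≤ n * ((δ ^ 2 * n) * d) := by
          rw [← hn] at b1
          gcongr
        refine h4.trans (le_of_eq ?_)
        ring
      have h3 : (q * R.card - A.card) ^ 2 ≤ (δ * n) ^ 2 := le_of_mul_le_mul_left h1 hd0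
      exact (abs_le.mp (abs_le_of_sq_le_sq h3 (by positivity))).2
    have hDR : D * (R.card : ℝ) ≤ n := by
      have h1 : q * R.card ≤ 2 * n := by
        have : δ * n ≤ 1 * n := mul_le_mul_of_nonneg_right (by rw [hδ]; linarith) hn0
        linarith
      rw [hq] at h1
      linarith
    -- the exceptional points
    obtain ⟨B, hB⟩ : ∃ B : Finset V, B = univ.filter fun x => q * c N R x + δ * d < c N A x :=
      ⟨_, rfl⟩
    have hBE : B.card * (δ * d) ^ 2 ≤ n * (2 * q * d) := by
      refine le_trans ?_ hE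
      have h1 : ∑ x ∈ B, (δ * d) ^ 2 ≤ ∑ x ∈ B, (q * c N R x - c N A x) ^ 2 := by
        refine sum_le_sum fun x hx => ?_
        rw [hB, mem_filter] at hx
        have h2 := hx.2
        have h3 : 0 ≤ δ * d := by positivity
        nlinarith
      rw [sum_const, nsmul_eq_mul] at h1
      exact h1.trans (sum_le_sum_of_subset_of_nonneg (subset_univ _) fun x _ _ => sq_nonneg _)
    have hBE' : B.card * (δ ^ 2 * d) ≤ n * (2 * q) := by
      have h1 : (B.card * (δ ^ 2 * d)) * d ≤ (n * (2 * q)) * d := by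
        calc (B.card * (δ ^ 2 * d)) * d = B.card * (δ * d) ^ 2 := by ring
          _ ≤ n * (2 * q * d) := hBE
          _ = (n * (2 * q)) * d := by ring
      exact le_of_mul_le_mul_right h1 hd0
    have hDB : D * (B.card : ℝ) ≤ n := by
      have h1 : (B.card : ℝ) * (D * (2 * q)) ≤ B.card * (δ ^ 2 * d) :=
        mul_le_mul_of_nonneg_left b2 (Nat.cast_nonneg _)
      have h2 : (D * (B.card : ℝ)) * (2 * q) ≤ n * (2 * q) := by linarith
      exact le_of_mul_le_mul_right h2 (by linarith)
    have hBε : (B.card : ℝ) ≤ ε / 4 * n := by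
      have h1 : (B.card : ℝ) * (4 * (2 * q)) ≤ B.card * (δ ^ 2 * ε * d) :=
        mul_le_mul_of_nonneg_left b3 (Nat.cast_nonneg _)
      have h2 : B.card * (δ ^ 2 * ε * d) ≤ n * (2 * q) * ε := by
        calc B.card * (δ ^ 2 * ε * d) = (B.card * (δ ^ 2 * d)) * ε := by ring
          _ ≤ (n * (2 * q)) * ε := mul_le_mul_of_nonneg_right hBE' hε.le
      have h3 : (B.card : ℝ) * (2 * q) ≤ (ε / 4 * n) * (2 * q) := by linarith
      exact le_of_mul_le_mul_right h3 (by linarith)
    -- indicator functions are in the finite set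
    have hind : ∀ T : Finset V, D * (T.card : ℝ) ≤ n →
        (fun x => if x ∈ T then 1 else 0 : V → ℕ) ∈ hfin.toFinset := by
      intro T hT
      rw [Set.Finite.mem_toFinset]
      have h1 : Nat.card {x // (if x ∈ T then 1 else 0 : ℕ) ≠ 0} = T.card := by
        have : ∀ x, ((if x ∈ T then 1 else 0 : ℕ) ≠ 0) ↔ x ∈ T := by
          intro x
          split_ifs with h <;> simp [h]
        simp_rw [this]
        simp
      refine ⟨?_, ?_⟩
      · rw [h1]
        rw [hn] at hT
        exact_mod_cast hT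
      · have h2 : ∑ x, (if x ∈ T then 1 else 0 : ℕ) = T.card := by simp
        rw [h2]
        have := card_le_univ T
        omega
    refine ⟨fam (fun x => if x ∈ R then 1 else 0, fun x => if x ∈ B then 1 else 0), ?_, ?_, ?_⟩
    · apply mem_image_of_mem
      rw [mem_product]
      exact ⟨hind R hDR, hind B hDB⟩
    · intro x
      rw [hsumA]
      show c N A x ≤ _
      have hc : (((∑ y ∈ N x, (if y ∈ R then 1 else 0 : ℕ) : ℕ)) : ℝ) = c N R x := by
        unfold c
        rw [← sum_filter, sum_const, smul_eq_mul, mul_one, filter_mem_eq_inter]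
      show c N A x ≤ if (if x ∈ B then 1 else 0 : ℕ) ≠ 0 then (d : ℝ) else
        q * ((∑ y ∈ N x, (if y ∈ R then 1 else 0 : ℕ) : ℕ) : ℝ) + δ * d
      rw [hc]
      by_cases h : x ∈ B
      · rw [if_pos h, if_pos one_ne_zero]
        unfold c
        exact_mod_cast (card_le_card inter_subset_left).trans (hcard x)
      · rw [if_neg h, if_neg (not_not.mpr rfl)]
        rw [hB, mem_filter] at h
        by_contra hcon
        exact h ⟨mem_univ x, not_le.mp hcon⟩
    · have hg : ∀ x, fam (fun x => if x ∈ R then 1 else 0, fun x => if x ∈ B then 1 else 0) x ≤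
          q * c N R x + δ * d + if x ∈ B then (d : ℝ) else 0 := by
        intro x
        have hc : (((∑ y ∈ N x, (if y ∈ R then 1 else 0 : ℕ) : ℕ)) : ℝ) = c N R x := by
          unfold c
          rw [← sum_filter, sum_const, smul_eq_mul, mul_one, filter_mem_eq_inter]
        show (if (if x ∈ B then 1 else 0 : ℕ) ≠ 0 then (d : ℝ) else
          q * ((∑ y ∈ N x, (if y ∈ R then 1 else 0 : ℕ) : ℕ) : ℝ) + δ * d) ≤ _
        rw [hc]
        have hc0 : 0 ≤ c N R x := Nat.cast_nonneg _
        have h1 : 0 ≤ q * c N R x + δ * d := by positivity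
        by_cases h : x ∈ B
        · rw [if_pos h, if_pos one_ne_zero, if_pos h]
          linarith
        · rw [if_neg h, if_neg (not_not.mpr rfl), if_neg h]
          linarith
      have h1 : ∑ x, fam (fun x => if x ∈ R then 1 else 0, fun x => if x ∈ B then 1 else 0) x ≤
          q * (d * R.card) + n * (δ * d) + d * B.card := by
        refine (sum_le_sum fun x _ => hg x).trans ?_
        rw [sum_add_distrib, sum_add_distrib, ← mul_sum, sum_const, nsmul_eq_mul, card_univ,
          ← hn]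
        have h5 : ∑ x : V, (if x ∈ B then (d : ℝ) else 0) = d * B.card := by
          rw [sum_ite_mem, univ_inter, sum_const, nsmul_eq_mul, mul_comm]
        rw [h5]
        have h6 := mul_le_mul_of_nonneg_left hsumR hq0.le
        linarith
      refine h1.trans ?_
      have h2 : ((∑ x, a x : ℕ) : ℝ) = A.card := by
        rw [hsumA, univ_inter]
      rw [h2, ← hn]
      have h3 : q * (d * R.card) + n * (δ * d) + d * B.card =
          d * (q * R.card + δ * n + B.card) := by ring
      rw [h3]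
      apply mul_le_mul_of_nonneg_left _ hd0.le
      have h4 : ε * n ≤ ε₀ * n := mul_le_mul_of_nonneg_right hεε hn0
      rw [hδ] at hRq ⊢
      have h5 : 0 ≤ ε * n := by positivity
      linarith

end Pool.Agent.KS6_63.UST
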