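import Mathlib

set_option autoImplicit false

/-!
# Uniform random spanning trees isomorphic to a given tree: modules

The project proves that for every `ε > 0` and every sufficiently large `d` the uniform random spanning
tree of a connected `d`-regular graph on `n` vertices is isomorphic to a given tree with probability at
most `exp (-(1 - ε) n)`.

A graph on `V` is given by `N : V → Finset V`, the sets of neighbours.
-/

namespace Pool.Agent.KS6_63.UST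

/-- The factor of a column with `c` ones in the theorem of Brègman. -/
noncomputable def bb (c : ℕ) : ℝ := (c.factorial : ℝ) ^ ((1 : ℝ) / c)

/-- Module BR: the theorem of Brègman (Minc's conjecture). -/
def StmtBR : Prop := ∀ (C R : Type) [Fintype C] [Fintype R] (A : R → C → Prop),
  Fintype.card C = Fintype.card R →
  (Nat.card {β : C ↪ R // ∀ x, A (β x) x} : ℝ) ≤ ∏ x : C, bb (Nat.card {t : R // A t x})

/-- Module FA: the factor is at most about `c / e`. -/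
def StmtFA : Prop := ∀ δ : ℝ, 0 < δ → ∃ K : ℝ, Real.exp 1 ≤ K ∧
  ∀ c : ℕ, bb c ≤ ((1 + δ) * c + K) / Real.exp 1

/-- Module CN: there are few functions with small support and bounded sum. -/
def StmtCN : Prop := ∀ ε : ℝ, 0 < ε → ∃ D : ℕ, 1 ≤ D ∧ ∀ (V : Type) [Fintype V],
  {h : V → ℕ | D * Nat.card {x // h x ≠ 0} ≤ Fintype.card V ∧
    ∑ x, h x ≤ 4 * Fintype.card V}.Finite ∧
  ({h : V → ℕ | D * Nat.card {x // h x ≠ 0} ≤ Fintype.card V ∧
    ∑ x, h x ≤ 4 * Fintype.card V}.ncard : ℝ) ≤ Real.exp (ε * Fintype.card V)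

/-- Module CV: the numbers of neighbours in an arbitrary set are dominated by a member of a small
family. -/
def StmtCV : Prop := ∀ ε : ℝ, 0 < ε → ∃ d₀ : ℕ, ∀ d : ℕ, d₀ ≤ d → ∀ (V : Type) [Fintype V]
  (N : V → Finset V), d₀ ≤ Fintype.card V → (∀ x, (N x).card ≤ d) → (∀ x y, y ∈ N x ↔ x ∈ N y) →
  ∃ 𝒢 : Finset (V → ℝ), (𝒢.card : ℝ) ≤ Real.exp (ε * Fintype.card V) ∧
    ∀ a : V → ℕ, (∀ x, a x ≤ 1) → ∃ g ∈ 𝒢, (∀ x, ((∑ y ∈ N x, a y : ℕ) : ℝ) ≤ g x) ∧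
      ∑ x, g x ≤ d * (((∑ x, a x : ℕ) : ℝ) + ε * Fintype.card V)

/-- Module CF: the same for several functions. -/
def StmtCF : Prop := ∀ ε : ℝ, 0 < ε → ∀ m : ℕ, ∃ d₀ : ℕ, ∀ d : ℕ, d₀ ≤ d → ∀ (V Θ : Type)
  [Fintype V] [Fintype Θ] (N : V → Finset V), Fintype.card Θ ≤ m → d₀ ≤ Fintype.card V →
  (∀ x, (N x).card ≤ d) →
  (∀ x y, y ∈ N x ↔ x ∈ N y) →
  ∃ 𝒢 : Finset (V → Θ → ℝ), (𝒢.card : ℝ) ≤ Real.exp (ε * Fintype.card V) ∧
    ∀ κ : V → Θ → ℕ, (∑ x, ∑ θ, κ x θ) ≤ Fintype.card V →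
      ∃ g ∈ 𝒢, (∀ x θ, ((∑ y ∈ N x, κ y θ : ℕ) : ℝ) ≤ g x θ) ∧
        ∑ x, ∑ θ, g x θ ≤ d * ((1 + ε) * Fintype.card V)

/-- Types of the vertices of a rooted tree: `par t` is the parent of `t ≠ r`. The vertices with
`vt t = none` (large vertices) form a subtree with root `r`. The type of a small vertex determines the
types and the indices of its children; `z` determines the indices of the large children of a large
vertex. -/
structure TS {W Θ : Type} (r : W) (par : W → W) (vt : W → Option Θ) (idx z : W → ℕ) : Prop where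
  root : vt r = none
  up : ∀ t, t ≠ r → vt t = none → vt (par t) = none
  inj : ∀ t t', t ≠ r → t' ≠ r → par t = par t' → (vt t = none ↔ vt t' = none) →
    idx t = idx t' → t = t'
  small : ∀ u u' t, vt u ≠ none → vt u = vt u' → t ≠ r → par t = u →
    ∃ t', t' ≠ r ∧ par t' = u' ∧ idx t' = idx t ∧ vt t' = vt t
  large : ∀ u u' t, vt u = none → vt u' = none → z u = z u' → t ≠ r → par t = u → vt t = none →
    ∃ t', t' ≠ r ∧ par t' = u' ∧ idx t' = idx t ∧ vt t' = none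

/-- Module TY: types exist; the number of types depends only on `D`. -/
def StmtTY : Prop := ∀ D : ℕ, 1 ≤ D → ∃ (Θ : Type) (_ : Fintype Θ), ∀ (W : Type) [Fintype W]
  (r : W) (par : W → W) (dep : W → ℕ), (∀ t, t ≠ r → dep (par t) < dep t) →
  2 * D < Fintype.card W → ∃ (vt : W → Option Θ) (idx z : W → ℕ), TS r par vt idx z ∧
    D * Nat.card {u // z u ≠ 0} ≤ Fintype.card W ∧ ∑ u, z u ≤ 4 * Fintype.card W

/-- Module PH: one phase of the counting of embeddings. -/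
def StmtPH : Prop := ∀ (V W Θ : Type) [Fintype V] [Fintype W] (N : V → Finset V) (par : W → W)
  (dep idx : W → ℕ) (vt : W → Θ) (B : Set W) (F : Set (W ≃ V)) (φ₀ : W ≃ V) (C : Finset V),
  φ₀ ∈ F → (∀ x, x ∈ C ↔ φ₀.symm x ∈ B) →
  (∀ t ∈ B, dep (par t) < dep t) →
  (∀ t ∈ B, ∀ t' ∈ B, par t = par t' → idx t = idx t' → t = t') →
  (∀ φ ∈ F, ∀ t ∈ B, φ (par t) ∈ N (φ t)) →
  (∀ φ ∈ F, ∀ x, φ.symm x ∈ B ↔ φ₀.symm x ∈ B) →
  (∀ φ ∈ F, ∀ x, φ.symm x ∈ B → vt (φ.symm x) = vt (φ₀.symm x)) →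
  (∀ φ ∈ F, ∀ t ∈ B, par t ∉ B → φ (par t) = φ₀ (par t)) →
  (∀ φ ∈ F, ∀ t ∈ B, ∃ t' ∈ B, φ₀ (par t') = φ (par t) ∧ idx t' = idx t ∧ vt t' = vt t) →
  (((fun (φ : W ≃ V) (t : B) => φ t) '' F).ncard : ℝ) ≤
    ∏ x ∈ C, bb (Nat.card {t // t ∈ B ∧ φ₀ (par t) ∈ N x ∧ vt t = vt (φ₀.symm x)})

/-- Module CT: the number of embeddings dominated by `g`. -/
def StmtCT : Prop := ∀ (V W Θ : Type) [Fintype V] [Fintype W] [Fintype Θ] (N : V → Finset V)
  (r : W) (par : W → W) (dep : W → ℕ) (vt : W → Option Θ) (idx z : W → ℕ),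
  (∀ t, t ≠ r → dep (par t) < dep t) → TS r par vt idx z →
  ∀ (Z : Finset (V → ℕ)) (g : V → Option Θ → ℝ) (b : ℝ → ℝ),
  (∀ (c : ℕ) (y : ℝ), (c : ℝ) ≤ y → bb c ≤ b y) → (∀ x θ, 1 ≤ b (g x θ)) →
  (Nat.card {φ : W ≃ V // (∀ t, t ≠ r → φ (par t) ∈ N (φ t)) ∧
    (∀ x θ, (Nat.card {t // t ≠ r ∧ vt t = θ ∧ φ (par t) ∈ N x} : ℝ) ≤ g x θ) ∧
    (fun y => z (φ.symm y)) ∈ Z} : ℝ) ≤
  Z.card * Fintype.card V * ∏ x, ∑ θ, b (g x θ)

/-- The upper bound for the number of embeddings. -/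
def StmtU : Prop := ∀ ε : ℝ, 0 < ε → ∃ d₀ : ℕ, ∀ d : ℕ, d₀ ≤ d → ∀ (V W : Type) [Fintype V]
  [Fintype W] (N : V → Finset V) (r : W) (par : W → W) (dep : W → ℕ),
  d₀ ≤ Fintype.card V → (∀ x, (N x).card ≤ d) → (∀ x y, y ∈ N x ↔ x ∈ N y) →
  (∀ t, t ≠ r → dep (par t) < dep t) → Fintype.card W = Fintype.card V →
  (Nat.card {φ : W ≃ V // ∀ t, t ≠ r → φ (par t) ∈ N (φ t)} : ℝ) ≤
    (d / Real.exp 1) ^ Fintype.card V * Real.exp (ε * Fintype.card V)

/-! ## The lower bound for the number of spanning trees -/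

/-- The points `x` of period at most `K x` under `f` such that no point of their orbit has fewer
neighbours. -/
def short {V : Type} (N : V → Finset V) (K : V → ℕ) (f : V → V) : Set V :=
  {x | (∃ k, 1 ≤ k ∧ k ≤ K x ∧ f^[k] x = x) ∧ ∀ j, (N x).card ≤ (N (f^[j] x)).card}

/-- Module L1: for at least half of the functions with `f x ∈ N x` few points have a small period. -/
def StmtL1 : Prop := ∀ (V : Type) [Fintype V] (N : V → Finset V) (w : V → ℝ) (K : V → ℕ) (η : ℝ),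
  0 < η → (∀ x, 0 ≤ w x) → (∀ x, w x * K x ≤ η * (N x).card) →
  (∏ x, ((N x).card : ℝ)) ≤ 2 * ({f : V → V | (∀ x, f x ∈ N x) ∧
    ∑ x, (short N K f).indicator w x ≤ 2 * (η * Fintype.card V)}.ncard : ℝ)

/-- Module L2: a set of small weight that meets all orbits. -/
def StmtL2 : Prop := ∀ (V : Type) [Fintype V] (N : V → Finset V) (f : V → V) (w : V → ℝ)
  (K : V → ℕ) (θ : ℝ), 0 ≤ θ → (∀ x, 0 ≤ w x) → (∀ x, w x ≤ θ * K x) →
  ∃ Z : Finset V, (∀ v, ∃ k, f^[k] v ∈ Z) ∧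
    ∑ z ∈ Z, w z ≤ ∑ x, (short N K f).indicator w x + θ * Fintype.card V

/-- Module L3: a forest given by a function extends to a spanning tree with few other edges. -/
def StmtL3 : Prop := ∀ (V : Type) [Fintype V] (G : SimpleGraph V) (f : V → V) (Z : Finset V),
  G.Connected → (∀ v, G.Adj v (f v)) → (∀ v, ∃ k, f^[k] v ∈ Z) →
  ∃ S : SimpleGraph V, S ≤ G ∧ S.IsTree ∧ (∀ v, v ∉ Z → S.Adj v (f v)) ∧
    Nat.card {e // e ∈ S.edgeSet ∧ ∀ v, v ∉ Z → e ≠ s(v, f v)} ≤ Z.card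

/-- The lower bound for the number of spanning trees (Kostochka). -/
def StmtL : Prop := ∀ ε : ℝ, 0 < ε → ∃ d₀ : ℕ, ∀ (V : Type) [Fintype V]
  (G : SimpleGraph V), G.Connected → (∀ x, d₀ ≤ Nat.card {y // G.Adj x y}) →
  (∏ x, (Nat.card {y // G.Adj x y} : ℝ)) * Real.exp (-(ε * Fintype.card V)) ≤
    ({S : SimpleGraph V | S ≤ G ∧ S.IsTree}.ncard : ℝ)

end Pool.Agent.KS6_63.UST
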