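import Pool.Agent.KS6_63.UST.Defs

set_option autoImplicit false

/-!
# Assembly of the lower bound for the number of spanning trees
-/

namespace Pool.Agent.KS6_63.UST

namespace ModL

/-- a forest is oriented towards its roots in only one way -/
lemma orient {V : Type} (f f' : V → V) (Z : Finset V) (hZ : ∀ v, ∃ k, f'^[k] v ∈ Z)
    (h : ∀ v, v ∉ Z → ∃ u, u ∉ Z ∧ s(u, f u) = s(v, f' v)) : ∀ v, v ∉ Z → f v = f' v := by
  intro v hv
  by_contra hne
  have key : ∀ k, f'^[k] v ∉ Z ∧ f (f'^[k] v) ≠ f' (f'^[k] v) := by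
    intro k
    induction k with
    | zero => exact ⟨hv, hne⟩
    | succ k ih =>
      obtain ⟨h1, h2⟩ := ih
      rw [Function.iterate_succ_apply']
      set w := f'^[k] v with hw
      obtain ⟨u, hu, huw⟩ := h w h1
      rw [Sym2.eq_iff] at huw
      rcases huw with ⟨a, b⟩ | ⟨a, b⟩
      · exact absurd (a ▸ b) h2
      · subst a
        refine ⟨hu, ?_⟩
        rw [b]
        intro h3
        -- the orbit of `w` has period two and avoids `Z`
        have h4 : ∀ j, f'^[j] w ∉ Z := by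
          intro j
          have h5 : ∀ j, f'^[j] w = w ∨ f'^[j] w = f' w := by
            intro j
            induction j with
            | zero => exact Or.inl rfl
            | succ j ih =>
              rw [Function.iterate_succ_apply']
              rcases ih with e | e
              · rw [e]; exact Or.inr rfl
              · rw [e]; exact Or.inl h3.symm
          rcases h5 j with e | e
          · rw [e]; exact h1
          · rw [e]; exact hu
        obtain ⟨j, hj⟩ := hZ w
        exact h4 j hj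
  obtain ⟨k, hk⟩ := hZ v
  exact (key k).1 hk

/-- `K` large compared with the logarithm -/
lemma exists_K {η : ℝ} (hη : 0 < η) : ∃ K₀ : ℕ, 1 ≤ K₀ ∧ ∀ K : ℕ, K₀ ≤ K →
    6 * Real.log (K + 1) ≤ η * K := by
  have h1 : Filter.Tendsto (fun x : ℝ => Real.log x / x) Filter.atTop (nhds 0) := by
    have := Real.isLittleO_log_id_atTop.tendsto_div_nhds_zero
    simpa using this
  have h2 : ∀ᶠ x : ℝ in Filter.atTop, Real.log x / x < η / 12 :=
    h1.eventually (gt_mem_nhds (by positivity))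
  obtain ⟨x₀, hx₀⟩ := Filter.eventually_atTop.1 h2
  refine ⟨max 1 ⌈x₀⌉₊, le_max_left _ _, ?_⟩
  intro K hK
  have hK1 : 1 ≤ K := (le_max_left _ _).trans hK
  have hK2 : x₀ ≤ (K : ℝ) + 1 := by
    have : x₀ ≤ K := (Nat.le_ceil _).trans (by exact_mod_cast (le_max_right _ _).trans hK)
    linarith
  have h3 := hx₀ _ hK2
  rw [div_lt_iff₀ (by positivity)] at h3
  have hK1' : (1 : ℝ) ≤ K := by exact_mod_cast hK1
  nlinarith

end ModL

open ModL in
theorem l (hCN : StmtCN) (hL1 : StmtL1) (hL2 : StmtL2) (hL3 : StmtL3) : StmtL := by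
  classical
  intro ε hε
  obtain ⟨η, hη⟩ : ∃ η : ℝ, η = min ε 1 / 8 := ⟨_, rfl⟩
  have hη0 : 0 < η := by rw [hη]; positivity
  have hηε : 8 * η ≤ ε := by
    have := min_le_left ε 1
    linarith
  have hη1 : η ≤ 1 := by
    have := min_le_right ε 1
    linarith
  obtain ⟨D, hD1, hCN'⟩ := hCN η hη0
  obtain ⟨K₀, hK₀1, hK₀⟩ := exists_K hη0
  refine ⟨max (K₀ ^ 2) (max ⌈1 / η⌉₊ ⌈Real.exp D⌉₊), ?_⟩
  intro V _ G hG hdeg
  have hVne : Nonempty V := hG.nonempty
  obtain ⟨n, hn⟩ : ∃ n, n = Fintype.card V := ⟨_, rfl⟩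
  rw [← hn]
  set N : V → Finset V := fun x => Finset.univ.filter fun y => G.Adj x y with hN
  have hNmem : ∀ x y, y ∈ N x ↔ G.Adj x y := by intro x y; simp [hN]
  have hNd : ∀ x, Nat.card {y // G.Adj x y} = (N x).card := by
    intro x
    rw [Nat.card_eq_fintype_card, Fintype.card_subtype]
  simp_rw [hNd] at hdeg ⊢
  have hdK : ∀ x, K₀ ≤ Nat.sqrt (N x).card := by
    intro x
    rw [Nat.le_sqrt, ← sq]
    exact (le_max_left _ _).trans (hdeg x)
  have hdη : ∀ x, 1 / η ≤ ((N x).card : ℝ) := fun x =>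
    (Nat.le_ceil _).trans (by
      exact_mod_cast (le_max_left _ _).trans ((le_max_right _ _).trans (hdeg x)))
  have hdD : ∀ x, Real.exp D ≤ ((N x).card : ℝ) := fun x =>
    (Nat.le_ceil _).trans (by
      exact_mod_cast (le_max_right _ _).trans ((le_max_right _ _).trans (hdeg x)))
  have hdpos : ∀ x, (0 : ℝ) < ((N x).card : ℝ) := fun x => (Real.exp_pos _).trans_le (hdD x)
  obtain ⟨w, hw⟩ : ∃ w : V → ℝ, w = fun x => Real.log (N x).card := ⟨_, rfl⟩
  obtain ⟨K, hK⟩ : ∃ K : V → ℕ, K = fun x => Nat.sqrt (N x).card := ⟨_, rfl⟩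
  have hwD : ∀ x, (D : ℝ) ≤ w x := by
    intro x
    rw [hw, Real.le_log_iff_exp_le (hdpos x)]
    exact hdD x
  have hw0 : ∀ x, 0 ≤ w x := fun x => (Nat.cast_nonneg D).trans (hwD x)
  have hwK : ∀ x, w x ≤ η / 3 * K x := by
    intro x
    have h1 := hK₀ _ (hdK x)
    have h2 : ((N x).card : ℝ) ≤ ((Nat.sqrt (N x).card : ℝ) + 1) ^ 2 := by
      have : (N x).card ≤ (Nat.sqrt (N x).card + 1) * (Nat.sqrt (N x).card + 1) :=
        (Nat.lt_succ_sqrt _).le
      rw [sq]
      exact_mod_cast this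
    have h3 : w x ≤ 2 * Real.log ((Nat.sqrt (N x).card : ℝ) + 1) := by
      rw [hw]
      calc Real.log (N x).card ≤ Real.log (((Nat.sqrt (N x).card : ℝ) + 1) ^ 2) :=
            Real.log_le_log (hdpos x) h2
        _ = _ := by rw [Real.log_pow]; norm_num
    rw [hK]
    simp only
    linarith
  have hwK' : ∀ x, w x * K x ≤ η / 3 * (N x).card := by
    intro x
    have h1 : w x * K x ≤ (η / 3 * K x) * K x :=
      mul_le_mul_of_nonneg_right (hwK x) (Nat.cast_nonneg _)
    have h2 : (K x : ℝ) * K x ≤ (N x).card := by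
      have : Nat.sqrt (N x).card * Nat.sqrt (N x).card ≤ (N x).card := Nat.sqrt_le _
      rw [hK]
      exact_mod_cast this
    have h3 : η / 3 * ((K x : ℝ) * K x) ≤ η / 3 * (N x).card :=
      mul_le_mul_of_nonneg_left h2 (by positivity)
    linarith
  have hnη : 1 ≤ η * n := by
    obtain ⟨x⟩ := hG.nonempty
    have h1 := hdη x
    have h2 : ((N x).card : ℝ) ≤ n := by rw [hn]; exact_mod_cast Finset.card_le_univ _
    rw [div_le_iff₀ hη0] at h1
    nlinarith
  obtain ⟨CC, hCC⟩ : ∃ CC : Set (V → ℕ), CC = {h : V → ℕ |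
    D * Nat.card {x // h x ≠ 0} ≤ Fintype.card V ∧ ∑ x, h x ≤ 4 * Fintype.card V} := ⟨_, rfl⟩
  have hfin : CC.Finite := by rw [hCC]; exact (hCN' V).1
  have hncard : (CC.ncard : ℝ) ≤ Real.exp (η * n) := by rw [hCC, hn]; exact (hCN' V).2
  have hch : ∀ A : Finset V, D * A.card ≤ n → (fun x => if x ∈ A then 1 else 0) ∈ CC := by
    intro A hA
    rw [hCC]
    refine ⟨?_, ?_⟩
    · have : Nat.card {x // (fun x => if x ∈ A then (1 : ℕ) else 0) x ≠ 0} = A.card := by
        rw [Nat.card_eq_fintype_card, Fintype.card_subtype]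
        congr 1
        ext x
        simp
      rw [this, ← hn]
      exact hA
    · rw [Finset.sum_ite_mem, Finset.univ_inter, Finset.sum_const, smul_eq_mul, mul_one]
      have := Finset.card_le_univ A
      omega
  set Q : Set (V → V) := {f : V → V | (∀ x, f x ∈ N x) ∧
    ∑ x, (short N K f).indicator w x ≤ 2 * (η / 3 * Fintype.card V)} with hQ
  have hQcard : (∏ x, ((N x).card : ℝ)) ≤ 2 * (Q.ncard : ℝ) :=
    hL1 V N w K (η / 3) (by positivity) hw0 hwK'
  -- the data of a good function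
  have hdata : ∀ f : V → V, f ∈ Q → ∃ (Z : Finset V) (S : SimpleGraph V), (∀ v, ∃ k, f^[k] v ∈ Z) ∧
      ∑ z ∈ Z, w z ≤ η * n ∧ S ≤ G ∧ S.IsTree ∧ (∀ v, v ∉ Z → S.Adj v (f v)) ∧
      Nat.card {e // e ∈ S.edgeSet ∧ ∀ v, v ∉ Z → e ≠ s(v, f v)} ≤ Z.card := by
    intro f hf
    obtain ⟨hf1, hf2⟩ := hf
    obtain ⟨Z, hZ1, hZ2⟩ := hL2 V N f w K (η / 3) (by positivity) hw0 hwK
    obtain ⟨S, hS1, hS2, hS3, hS4⟩ := hL3 V G f Z hG (fun v => (hNmem v (f v)).1 (hf1 v)) hZ1
    refine ⟨Z, S, hZ1, ?_, hS1, hS2, hS3, hS4⟩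
    rw [← hn] at hZ2 hf2
    linarith
  choose! ZZ SS hZ1 hZ2 hS1 hS2 hS3 hS4 using hdata
  -- an injection from the edges of a tree to the vertices
  have hι : ∀ S : SimpleGraph V, S.IsTree → ∃ ι : Sym2 V → V, Set.InjOn ι S.edgeSet := by
    intro S hS
    have h1 := hS.card_edgeFinset
    have h2 : Fintype.card S.edgeSet ≤ Fintype.card V := by
      rw [← SimpleGraph.edgeFinset_card]
      omega
    obtain ⟨e⟩ := Function.Embedding.nonempty_of_card_le h2
    obtain ⟨x⟩ := hG.nonempty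
    refine ⟨fun y => if hy : y ∈ S.edgeSet then e ⟨y, hy⟩ else x, ?_⟩
    intro y hy y' hy' h
    simp only [hy, hy', dif_pos] at h
    exact congrArg Subtype.val (e.injective h)
  choose! ι hι' using hι
  set T : Set (SimpleGraph V) := {S : SimpleGraph V | S ≤ G ∧ S.IsTree} with hT
  have hTfin : T.Finite := Set.toFinite _
  set EE : (V → V) → Finset V := fun f => Finset.univ.filter fun x =>
    ∃ e, (e ∈ (SS f).edgeSet ∧ ∀ v, v ∉ ZZ f → e ≠ s(v, f v)) ∧ ι (SS f) e = x with hEE
  have hEEcard : ∀ f ∈ Q, (EE f).card ≤ (ZZ f).card := by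
    intro f hf
    refine le_trans ?_ (hS4 f hf)
    have h1 : (EE f : Set V) ⊆
        ι (SS f) '' {e | e ∈ (SS f).edgeSet ∧ ∀ v, v ∉ ZZ f → e ≠ s(v, f v)} := by
      intro x hx
      simp only [hEE, Finset.coe_filter, Set.mem_setOf_eq, Finset.mem_univ, true_and] at hx
      exact hx
    have h2 := Set.ncard_le_ncard h1 (Set.toFinite _)
    rw [Set.ncard_coe_finset] at h2
    exact h2.trans (Set.ncard_image_le (Set.toFinite _))
  set δ : (V → V) → SimpleGraph V × (V → ℕ) × (V → ℕ) := fun f =>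
    (SS f, (fun x => if x ∈ ZZ f then 1 else 0), (fun x => if x ∈ EE f then 1 else 0)) with hδ
  have hDZ : ∀ f ∈ Q, D * (ZZ f).card ≤ n := by
    intro f hf
    have h1 := hZ2 f hf
    have h2 : ∑ z ∈ ZZ f, (D : ℝ) ≤ ∑ z ∈ ZZ f, w z := Finset.sum_le_sum fun z _ => hwD z
    rw [Finset.sum_const, nsmul_eq_mul] at h2
    have h3 : η * n ≤ 1 * n := mul_le_mul_of_nonneg_right hη1 (Nat.cast_nonneg _)
    have h4 : (D : ℝ) * (ZZ f).card ≤ n := by linarith
    exact_mod_cast h4
  have hQfin : Q.Finite := Set.toFinite _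
  set Qf := hQfin.toFinset with hQf
  have hmemQ : ∀ f, f ∈ Qf ↔ f ∈ Q := fun f => by rw [hQf]; exact hQfin.mem_toFinset
  set im : Finset (SimpleGraph V × (V → ℕ) × (V → ℕ)) :=
    hTfin.toFinset ×ˢ (hfin.toFinset ×ˢ hfin.toFinset) with him
  have hmaps : ∀ f ∈ Qf, δ f ∈ im := by
    intro f hf
    rw [hmemQ] at hf
    rw [him, Finset.mem_product, Finset.mem_product, Set.Finite.mem_toFinset,
      Set.Finite.mem_toFinset, Set.Finite.mem_toFinset]
    refine ⟨⟨hS1 f hf, hS2 f hf⟩, hch _ (hDZ f hf), hch _ ?_⟩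
    exact (Nat.mul_le_mul_left _ (hEEcard f hf)).trans (hDZ f hf)
  obtain ⟨M, hM⟩ : ∃ M : ℕ, M = ⌊Real.exp (η * n)⌋₊ := ⟨_, rfl⟩
  have hfib : ∀ y ∈ im, (Qf.filter fun f => δ f = y).card ≤ M := by
    intro y _
    rcases (Qf.filter fun f => δ f = y).eq_empty_or_nonempty with h0 | ⟨f₀, hf₀⟩
    · rw [h0, Finset.card_empty]; exact Nat.zero_le _
    rw [Finset.mem_filter, hmemQ] at hf₀
    obtain ⟨hf₀Q, hf₀y⟩ := hf₀
    have hsub : (Qf.filter fun f => δ f = y) ⊆
        Fintype.piFinset (fun v => if v ∈ ZZ f₀ then N v else {f₀ v}) := by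
      intro f hf
      rw [Finset.mem_filter, hmemQ] at hf
      obtain ⟨hfQ, hfy⟩ := hf
      have heq : δ f = δ f₀ := hfy.trans hf₀y.symm
      simp only [hδ, Prod.mk.injEq] at heq
      obtain ⟨e1, e2, e3⟩ := heq
      have hZeq : ZZ f = ZZ f₀ := by
        ext x
        have := congrFun e2 x
        by_cases h1 : x ∈ ZZ f <;> by_cases h2 : x ∈ ZZ f₀ <;> simp [h1, h2] at this ⊢
      have hEeq : EE f = EE f₀ := by
        ext x
        have := congrFun e3 x
        by_cases h1 : x ∈ EE f <;> by_cases h2 : x ∈ EE f₀ <;> simp [h1, h2] at this ⊢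
      have hagree : ∀ v, v ∉ ZZ f₀ → f v = f₀ v := by
        apply orient f f₀ (ZZ f₀) (hZ1 f₀ hf₀Q)
        intro v hv
        by_contra hcon
        push Not at hcon
        -- the edge `s(v, f₀ v)` is a remaining edge of `f`
        have h1 : s(v, f₀ v) ∈ (SS f).edgeSet := by
          rw [e1, SimpleGraph.mem_edgeSet]
          exact hS3 f₀ hf₀Q v hv
        have h2 : ι (SS f) s(v, f₀ v) ∈ EE f := by
          simp only [hEE, Finset.mem_filter, Finset.mem_univ, true_and]
          refine ⟨s(v, f₀ v), ⟨h1, ?_⟩, rfl⟩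
          intro u hu
          rw [hZeq] at hu
          exact (hcon u hu).symm
        rw [hEeq] at h2
        simp only [hEE, Finset.mem_filter, Finset.mem_univ, true_and] at h2
        obtain ⟨e, ⟨he1, he2⟩, he3⟩ := h2
        rw [e1] at he3 h1
        have h4 := hι' (SS f₀) (hS2 f₀ hf₀Q) he1 h1 he3
        exact he2 v hv h4
      rw [Fintype.mem_piFinset]
      intro v
      by_cases hv : v ∈ ZZ f₀
      · rw [if_pos hv]; exact hfQ.1 v
      · rw [if_neg hv, Finset.mem_singleton]; exact hagree v hv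
    refine (Finset.card_le_card hsub).trans ?_
    rw [Fintype.card_piFinset]
    have h1 : ∀ v, (if v ∈ ZZ f₀ then N v else {f₀ v}).card =
        if v ∈ ZZ f₀ then (N v).card else 1 := by
      intro v
      by_cases hv : v ∈ ZZ f₀
      · rw [if_pos hv, if_pos hv]
      · rw [if_neg hv, if_neg hv, Finset.card_singleton]
    rw [Finset.prod_congr rfl (fun v _ => h1 v), Finset.prod_ite_mem, Finset.univ_inter, hM]
    apply Nat.le_floor
    push_cast
    have h2 : ∏ v ∈ ZZ f₀, ((N v).card : ℝ) = Real.exp (∑ z ∈ ZZ f₀, w z) := by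
      rw [Real.exp_sum]
      refine Finset.prod_congr rfl fun v _ => ?_
      rw [hw, Real.exp_log (hdpos v)]
    rw [h2]
    exact Real.exp_le_exp.2 (hZ2 f₀ hf₀Q)
  have hcount : Qf.card ≤ M * (T.ncard * (CC.ncard * CC.ncard)) := by
    have h1 := Finset.card_le_mul_card_image_of_maps_to hmaps M hfib
    rw [him, Finset.card_product, Finset.card_product] at h1
    rwa [← Set.ncard_eq_toFinset_card _ hTfin, ← Set.ncard_eq_toFinset_card _ hfin] at h1
  have hMr : (M : ℝ) ≤ Real.exp (η * n) := by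
    rw [hM]
    exact Nat.floor_le (Real.exp_pos _).le
  have hcount' : (Q.ncard : ℝ) ≤ Real.exp (η * n) * (T.ncard * (CC.ncard * CC.ncard)) := by
    rw [Set.ncard_eq_toFinset_card _ hQfin]
    have h1 : ((hQfin.toFinset.card : ℕ) : ℝ) ≤ (M : ℝ) * (T.ncard * (CC.ncard * CC.ncard)) := by
      exact_mod_cast hcount
    exact h1.trans (mul_le_mul_of_nonneg_right hMr (by positivity))
  have h2e : (2 : ℝ) ≤ Real.exp (η * n) := by
    have := Real.add_one_le_exp (η * n)
    linarith
  have hfinal : (∏ x, ((N x).card : ℝ)) ≤ Real.exp (4 * η * n) * T.ncard := by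
    calc (∏ x, ((N x).card : ℝ)) ≤ 2 * Q.ncard := hQcard
      _ ≤ Real.exp (η * n) * (Real.exp (η * n) * (T.ncard * (CC.ncard * CC.ncard))) := by
          apply mul_le_mul h2e hcount' (by positivity) (by positivity)
      _ ≤ Real.exp (η * n) * (Real.exp (η * n) *
            (T.ncard * (Real.exp (η * n) * Real.exp (η * n)))) := by
          gcongr
      _ = Real.exp (4 * η * n) * T.ncard := by
          have : Real.exp (4 * η * n) = Real.exp (η * n) * Real.exp (η * n) *
              Real.exp (η * n) * Real.exp (η * n) := by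
            rw [← Real.exp_add, ← Real.exp_add, ← Real.exp_add]
            congr 1
            ring
          rw [this]
          ring
  calc (∏ x, ((N x).card : ℝ)) * Real.exp (-(ε * n)) ≤
      (Real.exp (4 * η * n) * T.ncard) * Real.exp (-(ε * n)) :=
        mul_le_mul_of_nonneg_right hfinal (Real.exp_pos _).le
    _ = T.ncard * Real.exp (4 * η * n - ε * n) := by
        rw [sub_eq_add_neg, Real.exp_add]; ring
    _ ≤ T.ncard * 1 := by
        apply mul_le_mul_of_nonneg_left _ (by positivity)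
        rw [← Real.exp_zero]
        apply Real.exp_le_exp.2
        have : (0 : ℝ) ≤ n := by positivity
        nlinarith
    _ = T.ncard := mul_one _

end Pool.Agent.KS6_63.UST
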