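import Pool.Agent.KS6_63.UST.Defs

set_option autoImplicit false

/-!
# Module L1: few points with a small period
-/

namespace Pool.Agent.KS6_63.UST

open Finset

namespace ModL1

section

variable {V : Type} [Fintype V] [DecidableEq V] (N : V → Finset V)

/-- the functions for which `k` is the least period of `x` and no point of the orbit of `x` has fewer
neighbours than `x` -/
noncomputable def A (x : V) (k : ℕ) : Finset (V → V) :=
  @Finset.filter _ (fun f => (f^[k] x = x ∧ ∀ j, j ∈ Ioo 0 k → f^[j] x ≠ x) ∧
    ∀ j, (N x).card ≤ (N (f^[j] x)).card)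
    (fun _ => Classical.propDecidable _) (Fintype.piFinset N)

theorem mem_A {f : V → V} {x : V} {k : ℕ} : f ∈ A N x k ↔ f ∈ Fintype.piFinset N ∧
    (f^[k] x = x ∧ ∀ j, j ∈ Ioo 0 k → f^[j] x ≠ x) ∧ ∀ j, (N x).card ≤ (N (f^[j] x)).card := by
  unfold A
  exact @Finset.mem_filter _ _ (fun _ => Classical.propDecidable _) _ _

theorem iter_update {f : V → V} {x : V} {m : ℕ} {w : V} (h : ∀ j, j < m → f^[j] x ≠ f^[m] x) :
    ∀ j, j ≤ m → (Function.update f (f^[m] x) w)^[j] x = f^[j] x := by
  intro j
  induction j with
  | zero => intro _; rfl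
  | succ j ih =>
    intro hj
    rw [Function.iterate_succ_apply', Function.iterate_succ_apply', ih (by omega),
      Function.update_of_ne (h j (by omega))]

theorem dist_of {f : V → V} {x : V} {m : ℕ} (h1 : f^[m + 1] x = x)
    (h2 : ∀ j, j ∈ Ioo 0 (m + 1) → f^[j] x ≠ x) : ∀ j, j < m → f^[j] x ≠ f^[m] x := by
  intro j hj he
  apply h2 (j + 1) (by rw [mem_Ioo]; omega)
  rw [Function.iterate_succ_apply', he, ← Function.iterate_succ_apply' f m x]
  exact h1

theorem card_A (x : V) (m : ℕ) :
    (N x).card * (A N x (m + 1)).card ≤ (Fintype.piFinset N).card := by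
  have h1 : (N x).card * (A N x (m + 1)).card ≤
      ((A N x (m + 1)).sigma fun f => N (f^[m] x)).card := by
    rw [card_sigma, mul_comm, ← smul_eq_mul, ← sum_const]
    exact sum_le_sum fun f hf => ((mem_A N).mp hf).2.2 m
  refine h1.trans ?_
  apply card_le_card_of_injOn (fun p => Function.update p.1 (p.1^[m] x) p.2)
  · rintro ⟨f, w⟩ hp
    rw [mem_coe, mem_sigma] at hp
    have hf := ((mem_A N).mp hp.1).1
    rw [Fintype.mem_piFinset] at hf
    rw [mem_coe, Fintype.mem_piFinset]
    intro z
    show Function.update f (f^[m] x) w z ∈ N z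
    by_cases hz : z = f^[m] x
    · rw [hz, Function.update_self]
      exact hp.2
    · rw [Function.update_of_ne hz]
      exact hf z
  · rintro ⟨f, w⟩ hp ⟨f', w'⟩ hp' he
    rw [mem_coe, mem_sigma] at hp hp'
    obtain ⟨_, ⟨h3, h4⟩, _⟩ := (mem_A N).mp hp.1
    obtain ⟨_, ⟨h3', h4'⟩, _⟩ := (mem_A N).mp hp'.1
    simp only at he h3 h4 h3' h4'
    have h5 := iter_update (w := w) (dist_of h3 h4) m le_rfl
    have h5' := iter_update (w := w') (dist_of h3' h4') m le_rfl
    rw [← he, h5] at h5'
    -- the points agree
    have h6 : w = w' := by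
      have := congrFun he (f^[m] x)
      rw [Function.update_self, h5', Function.update_self] at this
      exact this
    have h7 : f = f' := by
      funext z
      by_cases hz : z = f^[m] x
      · have e1 : f z = x := by
          rw [hz, ← Function.iterate_succ_apply' f m x]
          exact h3
        have e2 : f' z = x := by
          rw [hz, h5', ← Function.iterate_succ_apply' f' m x]
          exact h3'
        rw [e1, e2]
      · have := congrFun he z
        rw [Function.update_of_ne hz, Function.update_of_ne (by rw [← h5']; exact hz)] at this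
        exact this
    subst h7
    subst h6
    rfl

end

end ModL1

open ModL1 in
theorem l1 : StmtL1 := by
  classical
  intro V _ N w K η hη hw hwK
  obtain ⟨n, hn⟩ : ∃ n, n = Fintype.card V := ⟨_, rfl⟩
  obtain ⟨P, hP⟩ : ∃ P, P = (Fintype.piFinset N).card := ⟨_, rfl⟩
  have hFun : (∏ x, ((N x).card : ℝ)) = P := by
    rw [hP, Fintype.card_piFinset]
    push_cast
    rfl
  let X : (V → V) → ℝ := fun f => ∑ x, (short N K f).indicator w x
  have hX0 : ∀ f, 0 ≤ X f := fun f => sum_nonneg fun x _ => Set.indicator_nonneg (fun x _ => hw x) x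
  have hset : {f : V → V | (∀ x, f x ∈ N x) ∧
      ∑ x, (short N K f).indicator w x ≤ 2 * (η * Fintype.card V)} =
      (((Fintype.piFinset N).filter fun f => X f ≤ 2 * (η * n) : Finset (V → V)) :
        Set (V → V)) := by
    ext f
    rw [Set.mem_ofPred_eq, mem_coe, mem_filter, Fintype.mem_piFinset, hn]
  rw [hset, Set.ncard_coe_finset, hFun]
  -- the sum
  have hsum : ∑ f ∈ Fintype.piFinset N, X f ≤ η * n * P := by
    have h1 : ∀ f ∈ Fintype.piFinset N, X f ≤
        ∑ x : V, ∑ m ∈ range (K x), if f ∈ A N x (m + 1) then w x else 0 := by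
      intro f hf
      refine sum_le_sum fun x _ => ?_
      by_cases h : x ∈ short N K f
      · rw [Set.indicator_of_mem h]
        obtain ⟨⟨k, hk1, hk2, hk⟩, hmin⟩ := h
        have hex : ∃ m, f^[m + 1] x = x := ⟨k - 1, by rw [Nat.sub_add_cancel hk1]; exact hk⟩
        have hle : Nat.find hex < K x := by
          have := Nat.find_min' hex (m := k - 1) (by rw [Nat.sub_add_cancel hk1]; exact hk)
          omega
        have hmem : f ∈ A N x (Nat.find hex + 1) := by
          refine (mem_A N).mpr ⟨hf, ⟨Nat.find_spec hex, fun j hj he => ?_⟩, hmin⟩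
          rw [mem_Ioo] at hj
          have := Nat.find_min' hex (m := j - 1) (by rw [Nat.sub_add_cancel hj.1]; exact he)
          omega
        calc w x = if f ∈ A N x (Nat.find hex + 1) then w x else 0 := by rw [if_pos hmem]
          _ ≤ ∑ m ∈ range (K x), if f ∈ A N x (m + 1) then w x else 0 :=
            single_le_sum (f := fun m => if f ∈ A N x (m + 1) then w x else 0)
              (fun m _ => by
                show 0 ≤ if f ∈ A N x (m + 1) then w x else 0
                split_ifs
                · exact hw x
                · exact le_rfl) (mem_range.mpr hle)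
      · rw [Set.indicator_of_notMem h]
        refine sum_nonneg fun m _ => ?_
        split_ifs
        · exact hw x
        · exact le_rfl
    have h2 : ∑ f ∈ Fintype.piFinset N, X f ≤
        ∑ x : V, ∑ m ∈ range (K x), w x * (A N x (m + 1)).card := by
      refine (sum_le_sum h1).trans (le_of_eq ?_)
      rw [sum_comm]
      refine sum_congr rfl fun x _ => ?_
      rw [sum_comm]
      refine sum_congr rfl fun m _ => ?_
      rw [← sum_filter, sum_const, nsmul_eq_mul, mul_comm]
      congr 3
      ext f
      rw [mem_filter]
      constructor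
      · exact fun h => h.2
      · exact fun h => ⟨((mem_A N).mp h).1, h⟩
    refine h2.trans ?_
    have h3 : ∀ x ∈ (univ : Finset V), ∑ m ∈ range (K x), w x * ((A N x (m + 1)).card : ℝ) ≤
        η * P := by
      intro x _
      rcases Nat.eq_zero_or_pos (N x).card with h0 | h0
      · have h4 : w x * K x ≤ 0 := by
          have := hwK x
          rw [h0] at this
          simpa using this
        have h5 : ∀ m ∈ range (K x), w x * ((A N x (m + 1)).card : ℝ) ≤ w x * P := by
          intro m _
          apply mul_le_mul_of_nonneg_left _ (hw x)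
          rw [hP]
          exact_mod_cast card_le_card fun f hf => ((mem_A N).mp hf).1
        refine (sum_le_sum h5).trans ?_
        rw [sum_const, card_range, nsmul_eq_mul]
        have h6 : (K x : ℝ) * (w x * P) = (w x * K x) * P := by ring
        rw [h6]
        have h7 : (w x * K x) * (P : ℝ) ≤ 0 * P := mul_le_mul_of_nonneg_right h4 (Nat.cast_nonneg _)
        have h8 : 0 ≤ η * (P : ℝ) := by positivity
        linarith
      · have h0' : (0 : ℝ) < (N x).card := by exact_mod_cast h0
        have h4 : ∀ m ∈ range (K x), w x * ((A N x (m + 1)).card : ℝ) ≤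
            w x * (P / (N x).card) := by
          intro m _
          apply mul_le_mul_of_nonneg_left _ (hw x)
          rw [le_div_iff₀ h0', hP, mul_comm]
          exact_mod_cast card_A N x m
        refine (sum_le_sum h4).trans ?_
        rw [sum_const, card_range, nsmul_eq_mul]
        have h6 : (K x : ℝ) * (w x * (P / (N x).card)) = (w x * K x) * (P / (N x).card) := by ring
        rw [h6]
        calc (w x * K x) * ((P : ℝ) / (N x).card) ≤ (η * (N x).card) * (P / (N x).card) :=
              mul_le_mul_of_nonneg_right (hwK x) (by positivity)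
          _ = η * P := by field_simp
    refine (sum_le_sum h3).trans (le_of_eq ?_)
    rw [sum_const, card_univ, nsmul_eq_mul, ← hn]
    ring
  -- Markov
  have hbad : 2 * (((Fintype.piFinset N).filter fun f => ¬ X f ≤ 2 * (η * n)).card : ℝ) ≤ P := by
    rcases Nat.eq_zero_or_pos n with h0 | h0
    · have : ((Fintype.piFinset N).filter fun f => ¬ X f ≤ 2 * (η * n)) = ∅ := by
        apply filter_eq_empty_iff.mpr
        intro f _
        have : X f = 0 := by
          have : IsEmpty V := by
            rw [← Fintype.card_eq_zero_iff, ← hn, h0]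
          show ∑ x, (short N K f).indicator w x = 0
          exact Fintype.sum_empty _
        rw [this]
        push Not
        positivity
      rw [this, card_empty]
      simp
    · have h1 : (((Fintype.piFinset N).filter fun f => ¬ X f ≤ 2 * (η * n)).card : ℝ) *
          (2 * (η * n)) ≤ ∑ f ∈ Fintype.piFinset N, X f := by
        rw [← nsmul_eq_mul, ← sum_const]
        refine le_trans ?_ (sum_le_sum_of_subset_of_nonneg
          (filter_subset (fun f => ¬ X f ≤ 2 * (η * n)) _) fun f _ _ => hX0 f)
        refine sum_le_sum fun f hf => ?_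
        have := (mem_filter.mp hf).2
        push Not at this
        exact this.le
      have h2 := h1.trans hsum
      have h3 : 0 < η * n := by positivity
      have h4 : (2 * (((Fintype.piFinset N).filter fun f => ¬ X f ≤ 2 * (η * n)).card : ℝ)) *
          (η * n) ≤ P * (η * n) := by linarith
      exact le_of_mul_le_mul_right h4 h3
  have hsplit := card_filter_add_card_filter_not (s := Fintype.piFinset N)
    (fun f => X f ≤ 2 * (η * n))
  rw [← hP] at hsplit
  have hsplit' : (((Fintype.piFinset N).filter fun f => X f ≤ 2 * (η * n)).card : ℝ) +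
      ((Fintype.piFinset N).filter fun f => ¬ X f ≤ 2 * (η * n)).card = P := by
    exact_mod_cast hsplit
  linarith

end Pool.Agent.KS6_63.UST
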