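import Pool.Agent.KS6_63.UST.Defs

set_option autoImplicit false

namespace Pool.Agent.KS6_63.UST

namespace ModL2

/-- two points with a common iterate -/
def rel {V : Type} (f : V → V) : Setoid V where
  r x y := ∃ k l, f^[k] x = f^[l] y
  iseqv := {
    refl := fun x => ⟨0, 0, rfl⟩
    symm := by
      rintro x y ⟨k, l, h⟩
      exact ⟨l, k, h.symm⟩
    trans := by
      rintro x y z ⟨k, l, h⟩ ⟨k', l', h'⟩
      refine ⟨k' + k, l + l', ?_⟩
      rw [Function.iterate_add_apply, h, Function.iterate_add_apply, ← h',
        ← Function.iterate_add_apply, ← Function.iterate_add_apply, add_comm] }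

theorem exists_periodic {V : Type} [Finite V] (f : V → V) (v : V) :
    ∃ a p : ℕ, 0 < p ∧ f^[p] (f^[a] v) = f^[a] v := by
  obtain ⟨a, b, hab, h⟩ := Finite.exists_ne_map_eq_of_infinite (fun n : ℕ => f^[n] v)
  rcases lt_or_gt_of_ne hab with h1 | h1
  · refine ⟨a, b - a, by omega, ?_⟩
    rw [← Function.iterate_add_apply, Nat.sub_add_cancel h1.le]
    exact h.symm
  · refine ⟨b, a - b, by omega, ?_⟩
    rw [← Function.iterate_add_apply, Nat.sub_add_cancel h1.le]
    exact h

end ModL2

theorem l2 : StmtL2 := by
  classical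
  intro V _ N f w K θ hθ hw hwK
  let s := ModL2.rel f
  have hex : ∀ q : Quotient s, ∃ z : V, Quotient.mk s z = q ∧ (∃ p, 0 < p ∧ f^[p] z = z) ∧
      ∀ j, (N z).card ≤ (N (f^[j] z)).card := by
    intro q
    induction q using Quotient.inductionOn with
    | h v =>
      obtain ⟨a, p, hp, h⟩ := ModL2.exists_periodic f v
      obtain ⟨y, hy⟩ : ∃ y, y = f^[a] v := ⟨_, rfl⟩
      rw [← hy] at h
      -- the point of the orbit of `y` with the least number of neighbours
      have hne : ∃ m, ∃ j, (N (f^[j] y)).card = m := ⟨_, 0, rfl⟩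
      obtain ⟨j, hj⟩ := Nat.find_spec hne
      have hmin : ∀ i, Nat.find hne ≤ (N (f^[i] y)).card := fun i => Nat.find_min' hne ⟨i, rfl⟩
      refine ⟨f^[j] y, Quotient.sound ⟨0, j + a, ?_⟩, ⟨p, hp, ?_⟩, ?_⟩
      · rw [Function.iterate_add_apply, ← hy]
        rfl
      · rw [← Function.iterate_add_apply, add_comm, Function.iterate_add_apply, h]
      · intro i
        have h1 := hmin (i + j)
        rw [Function.iterate_add_apply] at h1
        rw [hj]
        exact h1
  choose z hz hzp hzmin using hex
  let P : V → Prop := fun x => x ∈ short N K f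
  refine ⟨Finset.univ.image z, ?_, ?_⟩
  · intro v
    obtain ⟨p, hp, hzq⟩ := hzp (Quotient.mk s v)
    have h1 : Quotient.mk s (z (Quotient.mk s v)) = Quotient.mk s v := hz _
    obtain ⟨l, k, hlk⟩ := Quotient.exact h1
    refine ⟨(l * p - l) + k, ?_⟩
    rw [Function.iterate_add_apply, ← hlk, ← Function.iterate_add_apply,
      Nat.sub_add_cancel (Nat.le_mul_of_pos_right l hp)]
    have h2 : f^[l * p] (z (Quotient.mk s v)) = z (Quotient.mk s v) := by
      have h3 : Function.IsPeriodicPt f p (z (Quotient.mk s v)) := hzq
      exact h3.const_mul l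
    rw [h2]
    exact Finset.mem_image_of_mem _ (Finset.mem_univ _)
  · set Z := Finset.univ.image z with hZ
    have hsplit : ∑ x ∈ Z, w x = ∑ x ∈ Z.filter P, w x + ∑ x ∈ Z.filter (fun x => ¬ P x), w x :=
      (Finset.sum_filter_add_sum_filter_not Z P w).symm
    have hs : ∑ x ∈ Z.filter P, w x ≤ ∑ x, (short N K f).indicator w x := by
      have h1 : ∑ x ∈ Z.filter P, w x = ∑ x ∈ Z.filter P, (short N K f).indicator w x := by
        refine Finset.sum_congr rfl fun x hx => ?_
        rw [Set.indicator_of_mem (Finset.mem_filter.mp hx).2]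
      rw [h1]
      exact Finset.sum_le_sum_of_subset_of_nonneg (Finset.subset_univ _) fun x _ _ =>
        Set.indicator_nonneg (fun x _ => hw x) x
    have hl : ∑ x ∈ Z.filter (fun x => ¬ P x), w x ≤ θ * Fintype.card V := by
      have h1 : ((Z.filter (fun x => ¬ P x)).sigma fun x => Finset.range (K x)).card ≤
          (Finset.univ : Finset V).card := by
        apply Finset.card_le_card_of_injOn (fun p => f^[p.2] p.1)
        · intro p _
          exact Finset.mem_coe.mpr (Finset.mem_univ _)
        · rintro ⟨x, j⟩ hx ⟨y, l⟩ hy hxy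
          rw [Finset.mem_coe, Finset.mem_sigma] at hx hy
          have hxy' : f^[j] x = f^[l] y := hxy
          obtain ⟨hx1, hx2⟩ := hx
          obtain ⟨hy1, hy2⟩ := hy
          have hx1' : x ∈ Z ∧ ¬ P x := Finset.mem_filter.mp hx1
          have hy1' : y ∈ Z ∧ ¬ P y := Finset.mem_filter.mp hy1
          obtain ⟨qx, _, hqx⟩ := Finset.mem_image.mp hx1'.1
          obtain ⟨qy, _, hqy⟩ := Finset.mem_image.mp hy1'.1
          have hq : qx = qy := by
            rw [← hz qx, ← hz qy, hqx, hqy]
            exact Quotient.sound ⟨j, l, hxy'⟩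
          have hxyeq : x = y := by rw [← hqx, ← hqy, hq]
          subst hxyeq
          have hper : K x < Function.minimalPeriod f x := by
            by_contra hcon
            apply hx1'.2
            obtain ⟨p, hp, hpx⟩ := hzp qx
            rw [hqx] at hpx
            have hmem : x ∈ Function.periodicPts f := ⟨p, hp, hpx⟩
            have h2 := Function.minimalPeriod_pos_of_mem_periodicPts hmem
            refine ⟨⟨Function.minimalPeriod f x, h2, not_lt.mp hcon,
              Function.isPeriodicPt_minimalPeriod f x⟩, ?_⟩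
            have := hzmin qx
            rwa [hqx] at this
          have hj : j < Function.minimalPeriod f x := lt_trans (Finset.mem_range.mp hx2) hper
          have hl : l < Function.minimalPeriod f x := lt_trans (Finset.mem_range.mp hy2) hper
          have hjl : j = l := Function.iterate_injOn_Iio_minimalPeriod hj hl hxy'
          rw [hjl]
      rw [Finset.card_sigma] at h1
      simp only [Finset.card_range, Finset.card_univ] at h1
      have h2 : ∑ x ∈ Z.filter (fun x => ¬ P x), w x ≤
          ∑ x ∈ Z.filter (fun x => ¬ P x), θ * K x := Finset.sum_le_sum fun x _ => hwK x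
      refine h2.trans ?_
      rw [← Finset.mul_sum]
      apply mul_le_mul_of_nonneg_left _ hθ
      exact_mod_cast h1
    rw [hsplit]
    exact add_le_add hs hl

end Pool.Agent.KS6_63.UST
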