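import Pool.Agent.KS6_63.UST.Defs

set_option autoImplicit false

namespace Pool.Agent.KS6_63.UST

namespace ModL3

open SimpleGraph

/-- membership preserved along a path -/
theorem reach_of_inv {V : Type} (H : SimpleGraph V) (X : V → Prop)
    (hX : ∀ a b, H.Adj a b → X a → X b) (a b : V) (h : H.Reachable a b) (ha : X a) : X b := by
  obtain ⟨p⟩ := h
  induction p with
  | nil => exact ha
  | cons hadj _ ih => exact ih (hX _ _ hadj ha)

/-- the forest of a function is acyclic -/
theorem acyclic {V : Type} (f : V → V) (Z : Finset V) (dep : V → ℕ)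
    (hdep : ∀ v, v ∉ Z → dep v = dep (f v) + 1) :
    (SimpleGraph.fromRel (fun v w => v ∉ Z ∧ w = f v)).IsAcyclic := by
  classical
  set H := SimpleGraph.fromRel (fun v w => v ∉ Z ∧ w = f v) with hH
  have key : ∀ v, v ∉ Z → H.IsBridge s(v, f v) := by
    intro v hv
    rw [isBridge_iff]
    intro hreach
    let X : V → Prop := fun u => ∃ k, f^[k] u = v ∧ dep u = dep v + k
    have hXv : X v := ⟨0, rfl, rfl⟩
    have hXf : ¬ X (f v) := by
      rintro ⟨k, _, hk⟩
      have := hdep v hv
      omega
    have hstep : ∀ a, a ∉ Z → s(a, f a) ≠ s(v, f v) → (X a ↔ X (f a)) := by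
      intro a ha hne
      have hd := hdep a ha
      constructor
      · rintro ⟨k, hk1, hk2⟩
        cases k with
        | zero =>
          exfalso
          apply hne
          have : a = v := hk1
          rw [this]
        | succ k =>
          refine ⟨k, ?_, by omega⟩
          rw [Function.iterate_succ_apply] at hk1
          exact hk1
      · rintro ⟨k, hk1, hk2⟩
        refine ⟨k + 1, ?_, by omega⟩
        rw [Function.iterate_succ_apply]
        exact hk1
    refine hXf (reach_of_inv _ X ?_ v (f v) hreach hXv)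
    intro a b hab ha
    rw [SimpleGraph.deleteEdges_adj, Set.mem_singleton_iff] at hab
    obtain ⟨hab1, hab2⟩ := hab
    rw [hH, SimpleGraph.fromRel_adj] at hab1
    rcases hab1.2 with ⟨h1, h2⟩ | ⟨h1, h2⟩
    · subst h2
      exact (hstep a h1 hab2).mp ha
    · subst h2
      exact (hstep b h1 (by rwa [Sym2.eq_swap] at hab2)).mpr ha
  rw [isAcyclic_iff_forall_adj_isBridge]
  intro v w hvw
  rw [hH, SimpleGraph.fromRel_adj] at hvw
  rcases hvw.2 with ⟨h1, h2⟩ | ⟨h1, h2⟩
  · subst h2
    exact key v h1
  · subst h2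
    rw [Sym2.eq_swap]
    exact key w h1

end ModL3

open SimpleGraph in
theorem l3 : StmtL3 := by
  classical
  intro V _ G f Z hG hf hZ
  let dep : V → ℕ := fun v => Nat.find (hZ v)
  have hdep : ∀ v, v ∉ Z → dep v = dep (f v) + 1 := by
    intro v hv
    have h1 := Nat.find_spec (hZ v)
    have h2 : Nat.find (hZ v) ≠ 0 := by
      intro h0
      rw [h0] at h1
      exact hv h1
    obtain ⟨k, hk⟩ := Nat.exists_eq_succ_of_ne_zero h2
    show Nat.find (hZ v) = Nat.find (hZ (f v)) + 1
    have h3 : Nat.find (hZ (f v)) = k := by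
      rw [Nat.find_eq_iff]
      constructor
      · rw [hk, Nat.succ_eq_add_one, Function.iterate_succ_apply] at h1
        exact h1
      · intro j hj hj2
        have h4 : j + 1 < Nat.find (hZ v) := by omega
        apply Nat.find_min (hZ v) h4
        rw [Function.iterate_succ_apply]
        exact hj2
    rw [h3, hk]
  have hacyc := ModL3.acyclic f Z dep hdep
  set H := SimpleGraph.fromRel (fun v w => v ∉ Z ∧ w = f v) with hH
  have hHG : H ≤ G := by
    intro v w hvw
    rw [hH, SimpleGraph.fromRel_adj] at hvw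
    rcases hvw.2 with ⟨h1, h2⟩ | ⟨h1, h2⟩
    · rw [h2]; exact hf v
    · rw [h2]; exact (hf w).symm
  obtain ⟨S, hHS, hSG, hS⟩ := hG.exists_isTree_le_of_le_of_isAcyclic hHG hacyc
  have hSf : ∀ v, v ∉ Z → S.Adj v (f v) := by
    intro v hv
    apply hHS
    rw [hH, SimpleGraph.fromRel_adj]
    exact ⟨(hf v).ne, Or.inl ⟨hv, rfl⟩⟩
  refine ⟨S, hSG, hS, hSf, ?_⟩
  have hcard := hS.card_edgeFinset
  set E1 : Finset (Sym2 V) := (Finset.univ.filter (fun v => v ∉ Z)).image (fun v => s(v, f v)) with hE1
  have hE1c : E1.card = Fintype.card V - Z.card := by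
    rw [hE1, Finset.card_image_of_injOn]
    · have : Finset.univ.filter (fun v => v ∉ Z) = Zᶜ := by
        ext v
        simp
      rw [this, Finset.card_compl]
    · intro u hu v hv huv
      have hu' : u ∉ Z := (Finset.mem_filter.mp (Finset.mem_coe.mp hu)).2
      have hv' : v ∉ Z := (Finset.mem_filter.mp (Finset.mem_coe.mp hv)).2
      have huv' : s(u, f u) = s(v, f v) := huv
      rw [Sym2.eq_iff] at huv'
      rcases huv' with ⟨h1, _⟩ | ⟨h1, h2⟩
      · exact h1
      · exfalso
        have a1 := hdep u hu'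
        have a2 := hdep v hv'
        rw [h2] at a1
        rw [← h1] at a2
        omega
  have hE1S : E1 ⊆ S.edgeFinset := by
    intro e he
    rw [hE1, Finset.mem_image] at he
    obtain ⟨v, hv, rfl⟩ := he
    rw [SimpleGraph.mem_edgeFinset, SimpleGraph.mem_edgeSet]
    exact hSf v (Finset.mem_filter.mp hv).2
  have hsub : (Finset.univ.filter (fun e : Sym2 V => e ∈ S.edgeSet ∧ ∀ v, v ∉ Z → e ≠ s(v, f v))) ⊆
      S.edgeFinset \ E1 := by
    intro e he
    have he' := (Finset.mem_filter.mp he).2
    rw [Finset.mem_sdiff, SimpleGraph.mem_edgeFinset]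
    refine ⟨he'.1, ?_⟩
    intro h
    rw [hE1, Finset.mem_image] at h
    obtain ⟨v, hv, hv2⟩ := h
    exact he'.2 v (Finset.mem_filter.mp hv).2 hv2.symm
  rw [Nat.card_eq_fintype_card, Fintype.card_subtype]
  have h1 := Finset.card_le_card hsub
  rw [Finset.card_sdiff_of_subset hE1S, hE1c] at h1
  have h2 : Z.card ≤ Fintype.card V := Finset.card_le_univ Z
  omega

end Pool.Agent.KS6_63.UST
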