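import Pool.Agent.KS6_63.UST.Defs

set_option autoImplicit false

/-!
# Module TY: types of the vertices of a rooted tree
-/

namespace Pool.Agent.KS6_63.UST

namespace ModTY

open BinaryTree

/-- The code of a list of trees. -/
def code : List (BinaryTree Unit) → BinaryTree Unit
  | [] => BinaryTree.nil
  | a :: l => BinaryTree.node () a (code l)

theorem code_inj : ∀ l l' : List (BinaryTree Unit), code l = code l' → l = l'
  | [], [], _ => rfl
  | [], a :: l, h => by simp [code] at h
  | a :: l, [], h => by simp [code] at h
  | a :: l, b :: l', h => by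
    simp only [code, BinaryTree.node.injEq, true_and] at h
    rw [h.1, code_inj l l' h.2]

theorem numNodes_code : ∀ l : List (BinaryTree Unit),
    (code l).numNodes = (l.map fun a => a.numNodes + 1).sum
  | [] => by simp [code]
  | a :: l => by
    simp only [code, BinaryTree.numNodes, List.map_cons, List.sum_cons, numNodes_code l]
    omega

section

variable {W : Type} [Fintype W] (dep : W → ℕ) (ch : W → List W)

/-- Induction from the leaves. -/
theorem indu (hch : ∀ u, ∀ t ∈ ch u, dep u < dep t) (Q : W → Prop)
    (h : ∀ u, (∀ t ∈ ch u, Q t) → Q u) : ∀ u, Q u := by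
  have key : ∀ (k : ℕ) (u : W), Finset.univ.sup dep + 1 ≤ k + dep u → Q u := by
    intro k
    induction k with
    | zero =>
      intro u hu
      have := Finset.le_sup (f := dep) (Finset.mem_univ u)
      omega
    | succ k ih =>
      intro u hu
      apply h
      intro t ht
      apply ih
      have := hch u t ht
      omega
  intro u
  exact key (Finset.univ.sup dep + 1) u (by omega)

/-- Recursion from the leaves. -/
theorem recu {β : Type} [Inhabited β] (hch : ∀ u, ∀ t ∈ ch u, dep u < dep t)
    (G : W → List β → β) : ∃ f : W → β, ∀ u, f u = G u ((ch u).map f) := by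
  let f : ℕ → W → β := fun k => Nat.rec (fun _ => default) (fun _ g u => G u ((ch u).map g)) k
  have hf : ∀ k u, f (k + 1) u = G u ((ch u).map (f k)) := fun k u => rfl
  have key : ∀ (k : ℕ) (u : W), Finset.univ.sup dep + 1 ≤ k + dep u → f k u = f (k + 1) u := by
    intro k
    induction k with
    | zero =>
      intro u hu
      have := Finset.le_sup (f := dep) (Finset.mem_univ u)
      omega
    | succ k ih =>
      intro u hu
      rw [hf k, hf (k + 1)]
      congr 1
      apply List.map_congr_left
      intro t ht
      apply ih
      have := hch u t ht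
      omega
  refine ⟨f (Finset.univ.sup dep + 1), fun u => ?_⟩
  exact (key (Finset.univ.sup dep + 1) u (by omega)).trans (hf (Finset.univ.sup dep + 1) u)

end

/-- The children of `u`. -/
noncomputable def chi {W : Type} [Fintype W] (r : W) (par : W → W) (u : W) : List W :=
  letI := Classical.decEq W
  (Finset.univ.filter fun t => t ≠ r ∧ par t = u).toList

theorem mem_chi {W : Type} [Fintype W] (r : W) (par : W → W) (u t : W) :
    t ∈ chi r par u ↔ t ≠ r ∧ par t = u := by
  simp [chi]

theorem nodup_chi {W : Type} [Fintype W] (r : W) (par : W → W) (u : W) :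
    (chi r par u).Nodup := by
  unfold chi
  exact Finset.nodup_toList _

/-- The value of a recursively defined sum at the root. -/
theorem sum_root {W : Type} [Fintype W] (r : W) (par : W → W) (w S : W → ℕ)
    (hS : ∀ u, S u = w u + ((chi r par u).map S).sum) : S r = ∑ u, w u := by
  classical
  have h1 : ∀ u, ((chi r par u).map S).sum =
      ∑ t ∈ Finset.univ.filter (fun t => t ≠ r), if par t = u then S t else 0 := by
    intro u
    have e1 : ((chi r par u).map S).sum =
        ∑ t ∈ Finset.univ.filter (fun t => t ≠ r ∧ par t = u), S t := by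
      rw [← Finset.sum_map_toList (Finset.univ.filter (fun t => t ≠ r ∧ par t = u)) S]
      unfold chi
      congr!
    rw [e1, ← Finset.sum_filter, Finset.filter_filter]
  have h2 : ∑ u, S u = ∑ u, w u + ∑ t ∈ Finset.univ.filter (fun t => t ≠ r), S t := by
    calc ∑ u, S u = ∑ u, (w u + ((chi r par u).map S).sum) := Finset.sum_congr rfl fun u _ => hS u
      _ = ∑ u, w u + ∑ u, ∑ t ∈ Finset.univ.filter (fun t => t ≠ r),
            (if par t = u then S t else 0) := by
          rw [Finset.sum_add_distrib]
          congr 1
          exact Finset.sum_congr rfl fun u _ => h1 u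
      _ = _ := by
          rw [Finset.sum_comm]
          congr 1
          apply Finset.sum_congr rfl
          intro t _
          rw [Finset.sum_ite_eq]
          simp
  have h3 : ∑ u, S u = S r + ∑ t ∈ Finset.univ.filter (fun t => t ≠ r), S t := by
    rw [← Finset.add_sum_erase _ _ (Finset.mem_univ r)]
    congr 2
    ext t
    simp
  omega

theorem finite_small (K : ℕ) : Finite {τ : BinaryTree Unit // τ.numNodes < K} := by
  have h : Set.Finite {τ : BinaryTree Unit | τ.numNodes < K} := by
    apply Set.Finite.subset ((Finset.range K).biUnion treesOfNumNodesEq).finite_toSet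
    intro τ hτ
    simp only [Finset.coe_biUnion, Finset.coe_range, Set.mem_iUnion, Finset.mem_coe]
    exact ⟨τ.numNodes, hτ, mem_treesOfNumNodesEq_numNodes τ⟩
  exact h.to_subtype

open Classical in
/-- The sizes of the subtrees control the number of vertices in the support of `z`. -/
theorem count {W : Type} [Fintype W] (r : W) (par : W → W) (dep size s : W → ℕ) (D : ℕ)
    (hch : ∀ u, ∀ t ∈ chi r par u, dep u < dep t) (Lg : W → Prop)
    (hL : ∀ u, Lg u ↔ u = r ∨ 2 * D < size u)
    (hsize : ∀ u, size u = 1 + ((chi r par u).map size).sum)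
    (hr : 2 * D < size r)
    (hs : ∀ u, s u = (if Lg u ∧ ((chi r par u).filter fun t => decide (Lg t)).length ≠ 1 then 1 else 0) +
      ((chi r par u).map s).sum) :
    ∀ u, (Lg u → D * s u + D + 1 ≤ size u) ∧ (¬ Lg u → s u = 0) := by
  apply indu dep (chi r par) hch
  intro u ih
  have hbig : ∀ t ∈ chi r par u, size t ≤ size u := by
    intro t ht
    have h1 := List.single_le_sum (l := (chi r par u).map size) (by simp) (size t)
      (List.mem_map_of_mem ht)
    rw [hsize u]
    omega
  constructor
  · intro hu
    have hsz : 2 * D < size u := by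
      rcases (hL u).1 hu with h | h
      · rw [h]; exact hr
      · exact h
    -- a bound for the sum over the children
    have hsum : ∀ l : List W, (∀ t ∈ l, (Lg t → D * s t + D + 1 ≤ size t) ∧ (¬ Lg t → s t = 0)) →
        D * (l.map s).sum + (l.filter fun t => decide (Lg t)).length * (D + 1) ≤
          (l.map size).sum := by
      intro l
      induction l with
      | nil => intro _; simp
      | cons a l ihl =>
        intro h
        have h1 := ihl fun t ht => h t (List.mem_cons_of_mem _ ht)
        have h2 := h a List.mem_cons_self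
        by_cases ha : Lg a
        · have h3 := h2.1 ha
          simp only [List.map_cons, List.sum_cons, List.filter_cons, ha, decide_true, if_true,
            List.length_cons]
          nlinarith
        · have h3 := h2.2 ha
          simp only [List.map_cons, List.sum_cons, List.filter_cons, ha, decide_false, h3]
          simp only [Bool.false_eq_true, if_false, zero_add]
          omega
    have h1 := hsum _ ih
    have hzero : ((chi r par u).filter fun t => decide (Lg t)).length = 0 →
        ((chi r par u).map s).sum = 0 := by
      intro h0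
      rw [List.length_eq_zero_iff, List.filter_eq_nil_iff] at h0
      rw [List.sum_eq_zero]
      intro x hx
      obtain ⟨t, ht, rfl⟩ := List.mem_map.1 hx
      exact (ih t ht).2 (by simpa using h0 t ht)
    rw [hs u]
    have h2 := hsize u
    generalize ((chi r par u).filter fun t => decide (Lg t)).length = κ at h1 hzero ⊢
    generalize ((chi r par u).map s).sum = S at h1 hzero ⊢
    by_cases h3 : κ = 1
    · subst h3
      simp only [ne_eq, not_true_eq_false, and_false, if_false, zero_add]
      omega
    · rw [if_pos ⟨hu, h3⟩]
      rcases Nat.eq_zero_or_pos κ with h4 | h4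
      · rw [hzero h4]
        omega
      · have h5 : 2 ≤ κ := by omega
        have h6 : 2 * (D + 1) ≤ κ * (D + 1) := Nat.mul_le_mul_right _ h5
        nlinarith
  · intro hu
    have hsz : ∀ t ∈ chi r par u, ¬ Lg t := by
      intro t ht h
      rcases (hL t).1 h with h1 | h1
      · exact ((mem_chi r par u t).1 ht).1 h1
      · exact hu ((hL u).2 (Or.inr (h1.trans_le (hbig t ht))))
    rw [hs u, if_neg (fun h => hu h.1), zero_add, List.sum_eq_zero]
    intro x hx
    obtain ⟨t, ht, rfl⟩ := List.mem_map.1 hx
    exact (ih t ht).2 (hsz t ht)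

end ModTY

open ModTY in
/-- Module TY: types exist. -/
theorem ty : StmtTY := by
  classical
  intro D hD
  have := finite_small (2 * D)
  refine ⟨{τ : BinaryTree Unit // τ.numNodes < 2 * D}, Fintype.ofFinite _, ?_⟩
  intro W _ r par dep hdep hcard
  have hch : ∀ u, ∀ t ∈ chi r par u, dep u < dep t := by
    intro u t ht
    obtain ⟨h1, h2⟩ := (mem_chi r par u t).1 ht
    rw [← h2]
    exact hdep t h1
  have : Inhabited (BinaryTree Unit) := ⟨BinaryTree.nil⟩
  obtain ⟨tyf, hty⟩ := recu dep (chi r par) hch (fun _ l => code l)
  obtain ⟨size, hsz⟩ : ∃ size : W → ℕ, size = fun u => (tyf u).numNodes + 1 := ⟨_, rfl⟩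
  have hsize : ∀ u, size u = 1 + ((chi r par u).map size).sum := by
    intro u
    rw [hsz]
    simp only
    rw [hty u, numNodes_code, List.map_map]
    simp only [Function.comp_def]
    omega
  have hroot : size r = Fintype.card W := by
    rw [sum_root r par (fun _ => 1) size hsize]
    simp
  obtain ⟨Lg, hLg⟩ : ∃ Lg : W → Prop, Lg = fun u => u = r ∨ 2 * D < size u := ⟨_, rfl⟩
  have hL : ∀ u, Lg u ↔ u = r ∨ 2 * D < size u := fun u => by rw [hLg]
  obtain ⟨chL, hchL⟩ : ∃ chL : W → List W,
      chL = fun u => (chi r par u).filter fun t => decide (Lg t) := ⟨_, rfl⟩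
  have mem_chL : ∀ u t, t ∈ chL u ↔ (t ≠ r ∧ par t = u) ∧ Lg t := by
    intro u t
    rw [hchL]
    simp [mem_chi]
  have nodup_chL : ∀ u, (chL u).Nodup := by
    intro u
    rw [hchL]
    exact (nodup_chi r par u).filter _
  have hsmall : ∀ u, ¬ Lg u → (tyf u).numNodes < 2 * D := by
    intro u hu
    rw [hL, hsz] at hu
    simp only [not_or, not_lt] at hu
    omega
  have hup : ∀ t, t ≠ r → Lg t → Lg (par t) := by
    intro t ht h
    rcases (hL t).1 h with h1 | h1
    · exact absurd h1 ht
    · rw [hL]
      right
      refine h1.trans_le ?_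
      have h2 := List.single_le_sum (l := (chi r par (par t)).map size) (by simp) (size t)
        (List.mem_map_of_mem ((mem_chi r par (par t) t).2 ⟨ht, rfl⟩))
      rw [hsize (par t)]
      omega
  let z : W → ℕ := fun u => if Lg u ∧ (chL u).length ≠ 1 then (chL u).length + 1 else 0
  let vt : W → Option {τ : BinaryTree Unit // τ.numNodes < 2 * D} := fun u =>
    if h : Lg u then none else some ⟨tyf u, hsmall u h⟩
  let idx : W → ℕ := fun t =>
    if Lg t then (chL (par t)).idxOf t else (chi r par (par t)).idxOf t
  have hvt : ∀ u, vt u = none ↔ Lg u := by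
    intro u
    by_cases h : Lg u
    · simp [vt, h]
    · simp [vt, h]
  have hvt2 : ∀ u u', vt u ≠ none → vt u = vt u' → ¬ Lg u ∧ ¬ Lg u' ∧ tyf u = tyf u' := by
    intro u u' h1 h2
    have h3 : ¬ Lg u := fun h => h1 ((hvt u).2 h)
    have h4 : ¬ Lg u' := fun h => h1 (h2.trans ((hvt u').2 h))
    refine ⟨h3, h4, ?_⟩
    simp only [vt, h3, h4, dif_neg, not_false_eq_true, Option.some.injEq, Subtype.mk.injEq] at h2
    exact h2
  refine ⟨vt, idx, z, ⟨?_, ?_, ?_, ?_, ?_⟩, ?_, ?_⟩
  · rw [hvt, hL]
    exact Or.inl rfl
  · intro t ht h
    rw [hvt] at h ⊢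
    exact hup t ht h
  · intro t t' ht ht' hp hiff hidx
    rw [hvt, hvt] at hiff
    by_cases h : Lg t
    · have h' := hiff.1 h
      simp only [idx, h, h', if_true] at hidx
      rw [← hp] at hidx
      exact (List.idxOf_inj ((mem_chL (par t) t).2 ⟨⟨ht, rfl⟩, h⟩)).1 hidx
    · have h' : ¬ Lg t' := fun h1 => h (hiff.2 h1)
      simp only [idx, h, h', if_false] at hidx
      rw [← hp] at hidx
      exact (List.idxOf_inj ((mem_chi r par (par t) t).2 ⟨ht, rfl⟩)).1 hidx
  · intro u u' t h1 h2 ht htu
    obtain ⟨hu, hu', he⟩ := hvt2 u u' h1 h2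
    have hl : (chi r par u).map tyf = (chi r par u').map tyf := by
      apply code_inj
      rw [← hty u, ← hty u', he]
    have hlen : (chi r par u).length = (chi r par u').length := by
      simpa using congrArg List.length hl
    have hmem : t ∈ chi r par u := (mem_chi r par u t).2 ⟨ht, htu⟩
    have hi : (chi r par u).idxOf t < (chi r par u).length := List.idxOf_lt_length_iff.2 hmem
    have hi' : (chi r par u).idxOf t < (chi r par u').length := by rw [← hlen]; exact hi
    have hmem' : (chi r par u')[(chi r par u).idxOf t] ∈ chi r par u' := List.getElem_mem hi'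
    obtain ⟨ht1, ht2⟩ := (mem_chi r par u' _).1 hmem'
    have htLg : ¬ Lg t := fun h => hu (htu ▸ hup t ht h)
    have htLg' : ¬ Lg (chi r par u')[(chi r par u).idxOf t] := fun h => by
      have := hup _ ht1 h
      rw [ht2] at this
      exact hu' this
    have htt : tyf (chi r par u')[(chi r par u).idxOf t] = tyf t := by
      have e1 : ((chi r par u').map tyf)[(chi r par u).idxOf t]? =
          ((chi r par u).map tyf)[(chi r par u).idxOf t]? := by rw [hl]
      rw [List.getElem?_map, List.getElem?_map, List.getElem?_eq_getElem hi',
        List.getElem?_eq_getElem hi, List.getElem_idxOf hi] at e1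
      simpa using e1
    refine ⟨(chi r par u')[(chi r par u).idxOf t], ht1, ht2, ?_, ?_⟩
    · simp only [idx, htLg, htLg', if_false]
      rw [ht2, htu, (nodup_chi r par u').idxOf_getElem]
    · simp only [vt, htLg, htLg', dif_neg, not_false_eq_true, Option.some.injEq,
        Subtype.mk.injEq]
      exact htt
  · intro u u' t h1 h2 hz ht htu hvtt
    rw [hvt] at h1 h2 hvtt
    have hlen : (chL u).length = (chL u').length := by
      simp only [z, h1, h2, true_and] at hz
      split_ifs at hz with a b b <;> omega
    have hmem : t ∈ chL u := (mem_chL u t).2 ⟨⟨ht, htu⟩, hvtt⟩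
    have hi : (chL u).idxOf t < (chL u).length := List.idxOf_lt_length_iff.2 hmem
    have hi' : (chL u).idxOf t < (chL u').length := by rw [← hlen]; exact hi
    have hmem' : (chL u')[(chL u).idxOf t] ∈ chL u' := List.getElem_mem hi'
    obtain ⟨⟨ht1, ht2⟩, ht3⟩ := (mem_chL u' _).1 hmem'
    refine ⟨(chL u')[(chL u).idxOf t], ht1, ht2, ?_, (hvt _).2 ht3⟩
    simp only [idx, hvtt, ht3, if_true]
    rw [ht2, htu, (nodup_chL u').idxOf_getElem]
  · have : Inhabited ℕ := ⟨0⟩
    obtain ⟨s, hs⟩ := recu dep (chi r par) hch
      (fun u l => (if Lg u ∧ (chL u).length ≠ 1 then 1 else 0) + l.sum)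
    have h1 := count r par dep size s D hch Lg hL hsize (by rw [hroot]; exact hcard)
      (by intro u; rw [hs u, hchL]) r
    have h2 := h1.1 ((hL r).2 (Or.inl rfl))
    have h3 := sum_root r par (fun u => if Lg u ∧ (chL u).length ≠ 1 then 1 else 0) s hs
    have h4 : Nat.card {u // z u ≠ 0} = s r := by
      rw [h3, Nat.card_eq_fintype_card, Fintype.card_subtype, Finset.card_filter]
      apply Finset.sum_congr rfl
      intro u _
      by_cases h : Lg u ∧ (chL u).length ≠ 1
      · rw [if_pos h]
        simp only [z, if_pos h]
        simp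
      · rw [if_neg h]
        simp only [z, if_neg h]
        simp
    rw [h4, ← hroot]
    omega
  · have h1 : ∀ u, z u ≤ ((chi r par u).map fun _ => 1).sum + 1 := by
      intro u
      have h2 : (chL u).length ≤ (chi r par u).length := by
        rw [hchL]
        exact List.length_filter_le _ _
      have h3 : ((chi r par u).map fun _ => 1).sum = (chi r par u).length := by simp
      rw [h3]
      simp only [z]
      split_ifs <;> omega
    have h2 : ∑ u, z u ≤ ∑ u, (((chi r par u).map fun _ => 1).sum + 1) :=
      Finset.sum_le_sum fun u _ => h1 u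
    have h3 : ∑ u, (((chi r par u).map fun _ => 1).sum) ≤ Fintype.card W := by
      have e1 : ∀ u, ((chi r par u).map fun _ => 1).sum =
          (Finset.univ.filter (fun t => t ≠ r ∧ par t = u)).card := by
        intro u
        simp only [List.map_const', List.sum_replicate, smul_eq_mul, mul_one]
        unfold chi
        rw [Finset.length_toList]
      rw [Finset.sum_congr rfl fun u _ => e1 u]
      have e2 : ∑ u, (Finset.univ.filter (fun t => t ≠ r ∧ par t = u)).card =
          (Finset.univ.filter (fun t => t ≠ r)).card := by
        rw [Finset.card_eq_sum_card_fiberwise (f := par) (t := Finset.univ) (by simp)]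
        apply Finset.sum_congr rfl
        intro u _
        rw [Finset.filter_filter]
      rw [e2]
      exact Finset.card_le_univ _
    rw [Finset.sum_add_distrib] at h2
    simp only [Finset.sum_const, Finset.card_univ, smul_eq_mul, mul_one] at h2
    omega

end Pool.Agent.KS6_63.UST
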